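import Mathlib

/-!
# Normalised exit-time moments of boxes: the cube is the strict maximiser

For every `d ≥ 2`, `p > 0` and every box `R_a`, `λ₁(R_a)^p E_0[τ^p]` is at most its value for the
cube, with strict inequality unless the box is a cube.

Idea.  The survival probabilities of a Gaussian walk in `[-1,1]` started at `0` are log-concave in
the number of steps (total positivity of the folded Gaussian kernel); letting the mesh go to `0`,
`F(t) = P_0(τ_{(-1,1)} > t)` satisfies `∏ F(s_k t) ≤ F(s̄ t)^d`.  Strictness: for small `t` the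
Gaussian tails `1 - F(t) ≈ exp(-1/(2t))` give a strict inequality.
-/

open MeasureTheory ProbabilityTheory Filter Topology Set
open scoped ENNReal NNReal

namespace Pool.Agent.Results.MP_1e851b_pr.BoxExit

/-! ### The discrete survival probabilities -/

/-- Survival probability in `[-1,1]` of a Gaussian walk with step variance `h`, started at `x`,
during steps `1, …, n`. -/
noncomputable def w (h : ℝ≥0) : ℕ → ℝ → ℝ
  | 0, _ => 1
  | n + 1, x => ∫ u, (Icc (-1 : ℝ) 1).indicator (w h n) (x + u) ∂(gaussianReal 0 h)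

lemma w_succ (h : ℝ≥0) (n : ℕ) (x : ℝ) :
    w h (n + 1) x = ∫ u, (Icc (-1 : ℝ) 1).indicator (w h n) (x + u) ∂(gaussianReal 0 h) := rfl

lemma ind_bounds {f : ℝ → ℝ} (h0 : ∀ x, 0 ≤ f x) (h1 : ∀ x, f x ≤ 1) (x : ℝ) :
    0 ≤ (Icc (-1 : ℝ) 1).indicator f x ∧ (Icc (-1 : ℝ) 1).indicator f x ≤ 1 := by
  by_cases hx : x ∈ Icc (-1 : ℝ) 1
  · rw [indicator_of_mem hx]; exact ⟨h0 x, h1 x⟩
  · rw [indicator_of_notMem hx]; exact ⟨le_rfl, zero_le_one⟩

lemma integrable_of_bdd {μ : Measure ℝ} [IsProbabilityMeasure μ] {f : ℝ → ℝ} (hf : Measurable f)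
    (h0 : ∀ x, 0 ≤ f x) (h1 : ∀ x, f x ≤ 1) : Integrable f μ := by
  refine Integrable.of_bound hf.aestronglyMeasurable 1 (ae_of_all _ fun x => ?_)
  rw [Real.norm_of_nonneg (h0 x)]
  exact h1 x

lemma w_meas (h : ℝ≥0) (n : ℕ) : Measurable (w h n) ∧ (∀ x, 0 ≤ w h n x) ∧ (∀ x, w h n x ≤ 1) := by
  induction n with
  | zero => exact ⟨measurable_const, fun _ => zero_le_one, fun _ => le_rfl⟩
  | succ n ih =>
    obtain ⟨hm, h0, h1⟩ := ih
    have hm' : Measurable ((Icc (-1 : ℝ) 1).indicator (w h n)) := hm.indicator measurableSet_Icc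
    refine ⟨?_, fun x => ?_, fun x => ?_⟩
    · have : StronglyMeasurable fun x : ℝ =>
          ∫ u, (Icc (-1 : ℝ) 1).indicator (w h n) (x + u) ∂(gaussianReal 0 h) := by
        apply StronglyMeasurable.integral_prod_right (f := fun x u =>
          (Icc (-1 : ℝ) 1).indicator (w h n) (x + u))
        exact (hm'.comp (measurable_fst.add measurable_snd)).stronglyMeasurable
      exact this.measurable
    · exact integral_nonneg fun u => (ind_bounds h0 h1 _).1
    · rw [w_succ]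
      calc ∫ u, (Icc (-1 : ℝ) 1).indicator (w h n) (x + u) ∂(gaussianReal 0 h)
          ≤ ∫ u, (1 : ℝ) ∂(gaussianReal 0 h) := by
            apply integral_mono_of_nonneg (ae_of_all _ fun u => (ind_bounds h0 h1 _).1)
              (integrable_const _)
            exact ae_of_all _ fun u => (ind_bounds h0 h1 _).2
        _ = 1 := by simp

lemma w_nonneg (h : ℝ≥0) (n : ℕ) (x : ℝ) : 0 ≤ w h n x := (w_meas h n).2.1 x
lemma w_le_one (h : ℝ≥0) (n : ℕ) (x : ℝ) : w h n x ≤ 1 := (w_meas h n).2.2 x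

/-- the Gaussian density -/
noncomputable def ph (h : ℝ≥0) (u : ℝ) : ℝ := gaussianPDFReal 0 h u

lemma ph_meas (h : ℝ≥0) : Measurable (ph h) := measurable_gaussianPDFReal 0 h

lemma ph_nonneg (h : ℝ≥0) (u : ℝ) : 0 ≤ ph h u := gaussianPDFReal_nonneg 0 h u

lemma ph_eq (h : ℝ≥0) (u : ℝ) :
    ph h u = (√(2 * Real.pi * h))⁻¹ * Real.exp (-u ^ 2 / (2 * h)) := by
  unfold ph gaussianPDFReal
  simp

lemma ph_neg (h : ℝ≥0) (u : ℝ) : ph h (-u) = ph h u := by
  rw [ph_eq, ph_eq, neg_sq]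

lemma ph_anti {h : ℝ≥0} {u v : ℝ} (huv : |u| ≤ |v|) : ph h v ≤ ph h u := by
  rw [ph_eq, ph_eq]
  apply mul_le_mul_of_nonneg_left _ (by positivity)
  apply Real.exp_le_exp.mpr
  have h1 : u ^ 2 ≤ v ^ 2 := sq_le_sq.mpr huv
  apply div_le_div_of_nonneg_right _ (by positivity)
  linarith

lemma ph_cont (h : ℝ≥0) : Continuous (ph h) := by
  have : ph h = fun u => (√(2 * Real.pi * h))⁻¹ * Real.exp (-u ^ 2 / (2 * h)) := by
    funext u; exact ph_eq h u
  rw [this]
  fun_prop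

lemma ph_bdd (h : ℝ≥0) (u : ℝ) : ph h u ≤ ph h 0 := ph_anti (by simp)

lemma ph_pos {h : ℝ≥0} (hh : h ≠ 0) (u : ℝ) : 0 < ph h u := gaussianPDFReal_pos 0 h u hh

/-- density form of the recursion -/
lemma w_succ' {h : ℝ≥0} (hh : h ≠ 0) (n : ℕ) (x : ℝ) :
    w h (n + 1) x = ∫ y in (-1 : ℝ)..1, ph h (y - x) * w h n y := by
  have h1 := integral_add_left_eq_self (μ := (volume : Measure ℝ))
    ((Icc (-1 : ℝ) 1).indicator fun t => ph h (t - x) * w h n t) x
  rw [w_succ, integral_gaussianReal_eq_integral_smul hh,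
    intervalIntegral.integral_of_le (by norm_num), ← integral_Icc_eq_integral_Ioc,
    ← integral_indicator measurableSet_Icc, ← h1]
  apply integral_congr_ae
  refine ae_of_all _ fun u => ?_
  simp only [smul_eq_mul]
  by_cases hx : x + u ∈ Icc (-1 : ℝ) 1
  · rw [indicator_of_mem hx, indicator_of_mem hx]
    unfold ph
    congr 2
    ring
  · rw [indicator_of_notMem hx, indicator_of_notMem hx, mul_zero]

lemma w_even {h : ℝ≥0} (hh : h ≠ 0) (n : ℕ) : ∀ x, w h n (-x) = w h n x := by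
  induction n with
  | zero => intro x; rfl
  | succ n ih =>
    intro x
    rw [w_succ' hh, w_succ' hh]
    have h1 := intervalIntegral.integral_comp_neg (a := -1) (b := 1)
      (fun y => ph h (y - x) * w h n y)
    rw [neg_neg] at h1
    rw [← h1]
    apply intervalIntegral.integral_congr
    intro y _
    simp only
    rw [ih y, ← ph_neg h (-y - x)]
    congr 2
    ring

/-- folded kernel -/
noncomputable def K (h : ℝ≥0) (x y : ℝ) : ℝ := ph h (y - x) + ph h (y + x)

lemma K_nonneg (h : ℝ≥0) (x y : ℝ) : 0 ≤ K h x y := add_nonneg (ph_nonneg _ _) (ph_nonneg _ _)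

lemma intble (h : ℝ≥0) (n : ℕ) (g : ℝ → ℝ) (hg : Continuous g) (a b : ℝ) :
    IntervalIntegrable (fun y => g y * w h n y) volume a b := by
  have h1 : IntervalIntegrable (w h n) volume a b := by
    rw [intervalIntegrable_iff]
    refine Measure.integrableOn_of_bounded (M := 1) (by simp) 
      (w_meas h n).1.aestronglyMeasurable (ae_of_all _ fun x => ?_)
    rw [Real.norm_of_nonneg (w_nonneg h n x)]
    exact w_le_one h n x
  exact h1.continuousOn_mul hg.continuousOn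

lemma w_fold {h : ℝ≥0} (hh : h ≠ 0) (n : ℕ) (x : ℝ) :
    w h (n + 1) x = ∫ y in (0 : ℝ)..1, K h x y * w h n y := by
  rw [w_succ' hh]
  have hi : ∀ a b : ℝ, IntervalIntegrable (fun y => ph h (y - x) * w h n y) volume a b :=
    fun a b => intble h n (fun y => ph h (y - x)) ((ph_cont h).comp (by fun_prop)) a b
  have hi2 : ∀ a b : ℝ, IntervalIntegrable (fun y => ph h (y + x) * w h n y) volume a b :=
    fun a b => intble h n (fun y => ph h (y + x)) ((ph_cont h).comp (by fun_prop)) a b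
  rw [← intervalIntegral.integral_add_adjacent_intervals (hi (-1) 0) (hi 0 1)]
  have h1 := intervalIntegral.integral_comp_neg (a := 0) (b := 1)
    (fun y => ph h (y - x) * w h n y)
  rw [neg_zero] at h1
  rw [← h1, ← intervalIntegral.integral_add]
  · apply intervalIntegral.integral_congr
    intro y _
    simp only
    rw [w_even hh n y, ← ph_neg h (-y - x)]
    unfold K
    rw [show -(-y - x) = y + x by ring]
    ring
  · have := hi2 0 1
    refine this.congr ?_
    intro y _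
    simp only
    rw [w_even hh n y, ← ph_neg h (-y - x), show -(-y - x) = y + x by ring]
  · exact hi 0 1

lemma K_eq {h : ℝ≥0} (hh : h ≠ 0) (x y : ℝ) :
    K h x y = (2 * (√(2 * Real.pi * h))⁻¹) * (Real.exp (-x ^ 2 / (2 * h)) *
      Real.exp (-y ^ 2 / (2 * h))) * Real.cosh (x * y / h) := by
  have hh' : (h:ℝ) ≠ 0 := by exact_mod_cast hh
  unfold K
  rw [ph_eq, ph_eq, Real.cosh_eq]
  have e1 : Real.exp (-(y - x) ^ 2 / (2 * h)) =
      Real.exp (-x ^ 2 / (2 * h)) * Real.exp (-y ^ 2 / (2 * h)) * Real.exp (x * y / h) := by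
    rw [← Real.exp_add, ← Real.exp_add]
    congr 1
    field_simp
    ring
  have e2 : Real.exp (-(y + x) ^ 2 / (2 * h)) =
      Real.exp (-x ^ 2 / (2 * h)) * Real.exp (-y ^ 2 / (2 * h)) * Real.exp (-(x * y / h)) := by
    rw [← Real.exp_add, ← Real.exp_add]
    congr 1
    field_simp
    ring
  rw [e1, e2]
  ring

lemma cosh_tp2 {a b c d : ℝ} (h1 : |c + d| ≤ |a + b|) (h2 : |c - d| ≤ |a - b|) :
    Real.cosh c * Real.cosh d ≤ Real.cosh a * Real.cosh b := by
  have e1 : Real.cosh a * Real.cosh b = (Real.cosh (a + b) + Real.cosh (a - b)) / 2 := by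
    rw [Real.cosh_add, Real.cosh_sub]; ring
  have e2 : Real.cosh c * Real.cosh d = (Real.cosh (c + d) + Real.cosh (c - d)) / 2 := by
    rw [Real.cosh_add, Real.cosh_sub]; ring
  rw [e1, e2]
  have := Real.cosh_le_cosh.mpr h1
  have := Real.cosh_le_cosh.mpr h2
  linarith

lemma K_tp2 {h : ℝ≥0} (hh : h ≠ 0) {x1 x2 y z : ℝ} (hx1 : 0 ≤ x1) (hx : x1 ≤ x2) (hy : 0 ≤ y)
    (hyz : y ≤ z) : K h x2 y * K h x1 z ≤ K h x1 y * K h x2 z := by
  have hh' : (0:ℝ) < h := by
    have : (h:ℝ) ≠ 0 := by exact_mod_cast hh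
    have h2 : (0:ℝ) ≤ h := h.2
    exact lt_of_le_of_ne h2 this.symm
  have hx2 : 0 ≤ x2 := hx1.trans hx
  have hz : 0 ≤ z := hy.trans hyz
  have hc : Real.cosh (x2 * y / h) * Real.cosh (x1 * z / h) ≤
      Real.cosh (x1 * y / h) * Real.cosh (x2 * z / h) := by
    apply cosh_tp2
    · rw [abs_of_nonneg (by positivity), abs_of_nonneg (by positivity), ← add_div, ← add_div]
      apply div_le_div_of_nonneg_right _ hh'.le
      nlinarith
    · rw [← sub_div, ← sub_div, abs_div, abs_div, abs_of_pos hh']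
      apply div_le_div_of_nonneg_right _ hh'.le
      rw [abs_sub_comm (x1 * y) (x2 * z), abs_of_nonneg (a := x2 * z - x1 * y) (by nlinarith)]
      rw [abs_le]
      constructor
      · nlinarith
      · nlinarith
  rw [K_eq hh, K_eq hh, K_eq hh, K_eq hh]
  set A := 2 * (√(2 * Real.pi * h))⁻¹
  set X1 := Real.exp (-x1 ^ 2 / (2 * h))
  set X2 := Real.exp (-x2 ^ 2 / (2 * h))
  set Y := Real.exp (-y ^ 2 / (2 * h))
  set Z := Real.exp (-z ^ 2 / (2 * h))
  have hpos : 0 ≤ A * A * (X1 * X2 * Y * Z) := by positivity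
  have := mul_le_mul_of_nonneg_left hc hpos
  linarith [this, show A * (X2 * Y) * Real.cosh (x2 * y / h) * (A * (X1 * Z) * Real.cosh (x1 * z / h)) =
    A * A * (X1 * X2 * Y * Z) * (Real.cosh (x2 * y / h) * Real.cosh (x1 * z / h)) by ring,
    show A * (X1 * Y) * Real.cosh (x1 * y / h) * (A * (X2 * Z) * Real.cosh (x2 * z / h)) =
    A * A * (X1 * X2 * Y * Z) * (Real.cosh (x1 * y / h) * Real.cosh (x2 * z / h)) by ring]

/-- symmetrisation inequality (basic composition formula). -/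
lemma symm_ineq {ν : Measure ℝ} [SFinite ν] {a b f g : ℝ → ℝ}
    (haf : Integrable (fun y => a y * f y) ν) (hag : Integrable (fun y => a y * g y) ν)
    (hbf : Integrable (fun y => b y * f y) ν) (hbg : Integrable (fun y => b y * g y) ν)
    (hab : ∀ᵐ q ∂(ν.prod ν), q.1 ≤ q.2 → b q.1 * a q.2 ≤ a q.1 * b q.2)
    (hfg : ∀ᵐ q ∂(ν.prod ν), q.1 ≤ q.2 → f q.2 * g q.1 ≤ f q.1 * g q.2)
    (hab' : ∀ᵐ q ∂(ν.prod ν), q.2 ≤ q.1 → b q.2 * a q.1 ≤ a q.2 * b q.1)
    (hfg' : ∀ᵐ q ∂(ν.prod ν), q.2 ≤ q.1 → f q.1 * g q.2 ≤ f q.2 * g q.1) :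
    (∫ y, b y * f y ∂ν) * (∫ y, a y * g y ∂ν) ≤ (∫ y, a y * f y ∂ν) * (∫ y, b y * g y ∂ν) := by
  have e1 : (∫ y, a y * f y ∂ν) * (∫ y, b y * g y ∂ν) =
      ∫ q, (a q.1 * f q.1) * (b q.2 * g q.2) ∂(ν.prod ν) := (integral_prod_mul _ _).symm
  have e2 : (∫ y, b y * f y ∂ν) * (∫ y, a y * g y ∂ν) =
      ∫ q, (b q.1 * f q.1) * (a q.2 * g q.2) ∂(ν.prod ν) := (integral_prod_mul _ _).symm
  have e3 : (∫ y, a y * f y ∂ν) * (∫ y, b y * g y ∂ν) =
      ∫ q, (b q.1 * g q.1) * (a q.2 * f q.2) ∂(ν.prod ν) := by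
    rw [mul_comm]; exact (integral_prod_mul _ _).symm
  have e4 : (∫ y, b y * f y ∂ν) * (∫ y, a y * g y ∂ν) =
      ∫ q, (a q.1 * g q.1) * (b q.2 * f q.2) ∂(ν.prod ν) := by
    rw [mul_comm]; exact (integral_prod_mul _ _).symm
  have i1 := haf.mul_prod hbg
  have i2 := hbf.mul_prod hag
  have i3 := hbg.mul_prod haf
  have i4 := hag.mul_prod hbf
  have key : 0 ≤ ∫ q, ((a q.1 * f q.1) * (b q.2 * g q.2) - (b q.1 * f q.1) * (a q.2 * g q.2)) +
      ((b q.1 * g q.1) * (a q.2 * f q.2) - (a q.1 * g q.1) * (b q.2 * f q.2)) ∂(ν.prod ν) := by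
    apply integral_nonneg_of_ae
    filter_upwards [hab, hfg, hab', hfg'] with q h1 h2 h3 h4
    have e5 : ((a q.1 * f q.1) * (b q.2 * g q.2) - (b q.1 * f q.1) * (a q.2 * g q.2)) +
      ((b q.1 * g q.1) * (a q.2 * f q.2) - (a q.1 * g q.1) * (b q.2 * f q.2)) =
      (a q.1 * b q.2 - b q.1 * a q.2) * (f q.1 * g q.2 - f q.2 * g q.1) := by ring
    show 0 ≤ _
    rw [e5]
    rcases le_total q.1 q.2 with h | h
    · exact mul_nonneg (by linarith [h1 h]) (by linarith [h2 h])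
    · exact mul_nonneg_of_nonpos_of_nonpos (by linarith [h3 h]) (by linarith [h4 h])
  have hsum : ∫ q, ((a q.1 * f q.1) * (b q.2 * g q.2) - (b q.1 * f q.1) * (a q.2 * g q.2)) +
      ((b q.1 * g q.1) * (a q.2 * f q.2) - (a q.1 * g q.1) * (b q.2 * f q.2)) ∂(ν.prod ν) =
      (∫ q, (a q.1 * f q.1) * (b q.2 * g q.2) ∂(ν.prod ν) -
        ∫ q, (b q.1 * f q.1) * (a q.2 * g q.2) ∂(ν.prod ν)) +
      (∫ q, (b q.1 * g q.1) * (a q.2 * f q.2) ∂(ν.prod ν) -
        ∫ q, (a q.1 * g q.1) * (b q.2 * f q.2) ∂(ν.prod ν)) := by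
    rw [← integral_sub i1 i2, ← integral_sub i3 i4]
    exact integral_add (i1.sub i2) (i3.sub i4)
  rw [hsum, ← e1, ← e2, ← e3, ← e4] at key
  linarith

lemma ph_int (h : ℝ≥0) (a b : ℝ) : IntervalIntegrable (ph h) volume a b :=
  (ph_cont h).intervalIntegrable a b

/-- base case of the monotonicity of ratios -/
lemma w_one_anti {h : ℝ≥0} (hh : h ≠ 0) {x1 x2 : ℝ} (hx1 : 0 ≤ x1) (hx : x1 ≤ x2) :
    w h 1 x2 ≤ w h 1 x1 := by
  have e : ∀ x, w h 1 x = ∫ u in (-1 - x)..(1 - x), ph h u := by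
    intro x
    rw [w_succ' hh]
    have h1 := intervalIntegral.integral_comp_sub_right (a := -1) (b := 1) (fun u => ph h u) x
    rw [← h1]
    apply intervalIntegral.integral_congr
    intro y _
    simp [w]
  rw [e, e]
  have h1 : ∫ u in (-1 - x2)..(1 - x2), ph h u =
      (∫ u in (-1 - x2)..(-1 - x1), ph h u) + ∫ u in (-1 - x1)..(1 - x2), ph h u :=
    (intervalIntegral.integral_add_adjacent_intervals (ph_int h _ _) (ph_int h _ _)).symm
  have h2 : ∫ u in (-1 - x1)..(1 - x1), ph h u =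
      (∫ u in (-1 - x1)..(1 - x2), ph h u) + ∫ u in (1 - x2)..(1 - x1), ph h u :=
    (intervalIntegral.integral_add_adjacent_intervals (ph_int h _ _) (ph_int h _ _)).symm
  have h3 : ∫ u in (-1 - x2)..(-1 - x1), ph h u = ∫ v in (0:ℝ)..(x2 - x1), ph h (v + (-1 - x2)) := by
    have := intervalIntegral.integral_comp_add_right (a := 0) (b := x2 - x1) (fun u => ph h u) (-1 - x2)
    rw [this]
    congr 1 <;> ring
  have h4 : ∫ u in (1 - x2)..(1 - x1), ph h u = ∫ v in (0:ℝ)..(x2 - x1), ph h (v + (1 - x2)) := by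
    have := intervalIntegral.integral_comp_add_right (a := 0) (b := x2 - x1) (fun u => ph h u) (1 - x2)
    rw [this]
    congr 1 <;> ring
  have h5 : ∫ v in (0:ℝ)..(x2 - x1), ph h (v + (-1 - x2)) ≤
      ∫ v in (0:ℝ)..(x2 - x1), ph h (v + (1 - x2)) := by
    apply intervalIntegral.integral_mono_on (by linarith)
    · exact ((ph_cont h).comp (by fun_prop)).intervalIntegrable _ _
    · exact ((ph_cont h).comp (by fun_prop)).intervalIntegrable _ _
    · intro v hv
      apply ph_anti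
      rw [abs_of_nonpos (a := v + (-1 - x2)) (by linarith [hv.2]), abs_le]
      constructor <;> linarith [hv.1, hv.2]
  rw [h1, h2, h3, h4]
  linarith

lemma ae_prod_Ioc {p : ℝ × ℝ → Prop} (hp : ∀ y z : ℝ, y ∈ Ioc (0:ℝ) 1 → z ∈ Ioc (0:ℝ) 1 → p (y, z)) :
    ∀ᵐ q ∂((volume.restrict (Ioc (0:ℝ) 1)).prod (volume.restrict (Ioc (0:ℝ) 1))), p q := by
  rw [Measure.prod_restrict]
  filter_upwards [ae_restrict_mem (measurableSet_Ioc.prod measurableSet_Ioc)] with q hq
  exact hp q.1 q.2 hq.1 hq.2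

/-- the ratio `w_{n+1} / w_n` is nonincreasing on `[0,1]` -/
lemma ratio_anti {h : ℝ≥0} (hh : h ≠ 0) (n : ℕ) : ∀ x1 x2 : ℝ, 0 ≤ x1 → x1 ≤ x2 → 
    w h (n + 1) x2 * w h n x1 ≤ w h (n + 1) x1 * w h n x2 := by
  induction n with
  | zero =>
    intro x1 x2 hx1 hx
    have := w_one_anti hh hx1 hx
    simpa [w] using this
  | succ n ih =>
    intro x1 x2 hx1 hx
    have hKc : ∀ x, Continuous fun y => K h x y := fun x =>
      ((ph_cont h).comp (by fun_prop)).add ((ph_cont h).comp (by fun_prop))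
    have hint : ∀ x k, Integrable (fun y => K h x y * w h k y) (volume.restrict (Ioc (0:ℝ) 1)) :=
      fun x k => (intble h k _ (hKc x) 0 1).1
    rw [w_fold hh (n + 1) x2, w_fold hh n x1, w_fold hh (n + 1) x1, w_fold hh n x2,
      intervalIntegral.integral_of_le zero_le_one, intervalIntegral.integral_of_le zero_le_one,
      intervalIntegral.integral_of_le zero_le_one, intervalIntegral.integral_of_le zero_le_one]
    apply symm_ineq (hint x1 (n + 1)) (hint x1 n) (hint x2 (n + 1)) (hint x2 n)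
    · apply ae_prod_Ioc
      intro y z hy hz hyz
      exact K_tp2 hh hx1 hx hy.1.le hyz
    · apply ae_prod_Ioc
      intro y z hy hz hyz
      exact ih y z hy.1.le hyz
    · apply ae_prod_Ioc
      intro y z hy hz hyz
      exact K_tp2 hh hx1 hx hz.1.le hyz
    · apply ae_prod_Ioc
      intro y z hy hz hyz
      exact ih z y hz.1.le hyz

lemma ratio_zero {h : ℝ≥0} (hh : h ≠ 0) (n : ℕ) (y : ℝ) :
    w h (n + 1) y * w h n 0 ≤ w h (n + 1) 0 * w h n y := by
  have h1 := ratio_anti hh n 0 |y| le_rfl (abs_nonneg y)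
  have h2 : ∀ k, w h k |y| = w h k y := by
    intro k
    rcases abs_choice y with h | h
    · rw [h]
    · rw [h, w_even hh]
  rwa [h2, h2] at h1

/-- log-concavity in the number of steps -/
lemma w_logconcave {h : ℝ≥0} (hh : h ≠ 0) (n : ℕ) :
    w h (n + 2) 0 * w h n 0 ≤ w h (n + 1) 0 ^ 2 := by
  have i1 := intble h (n + 1) (fun y => ph h (y - 0)) ((ph_cont h).comp (by fun_prop)) (-1) 1
  have i2 := intble h n (fun y => ph h (y - 0)) ((ph_cont h).comp (by fun_prop)) (-1) 1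
  calc w h (n + 2) 0 * w h n 0 =
        ∫ y in (-1:ℝ)..1, (ph h (y - 0) * w h (n + 1) y) * w h n 0 := by
        rw [intervalIntegral.integral_mul_const, ← w_succ' hh]
    _ ≤ ∫ y in (-1:ℝ)..1, (ph h (y - 0) * w h n y) * w h (n + 1) 0 := by
        apply intervalIntegral.integral_mono_on (by norm_num) (i1.mul_const _) (i2.mul_const _)
        intro y _
        have h1 := mul_le_mul_of_nonneg_left (ratio_zero hh n y) (ph_nonneg h (y - 0))
        linarith [h1]
    _ = w h (n + 1) 0 ^ 2 := by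
        rw [intervalIntegral.integral_mul_const, ← w_succ' hh]; ring

lemma w_pos {h : ℝ≥0} (hh : h ≠ 0) (n : ℕ) : ∀ x ∈ Icc (-1:ℝ) 1, (2 * ph h 2) ^ n ≤ w h n x := by
  induction n with
  | zero => intro x _; simp [w]
  | succ n ih =>
    intro x hx
    rw [w_succ' hh]
    calc (2 * ph h 2) ^ (n + 1) = ∫ y in (-1:ℝ)..1, ph h 2 * (2 * ph h 2) ^ n := by
          rw [intervalIntegral.integral_const]
          simp only [smul_eq_mul]
          ring
      _ ≤ ∫ y in (-1:ℝ)..1, ph h (y - x) * w h n y := by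
          apply intervalIntegral.integral_mono_on (by norm_num) intervalIntegrable_const
            (intble h n _ ((ph_cont h).comp (by fun_prop)) _ _)
          intro y hy
          apply mul_le_mul _ (ih y hy) _ (ph_nonneg _ _)
          · apply ph_anti
            rw [abs_le, abs_two]
            constructor <;> linarith [hx.1, hx.2, hy.1, hy.2]
          · have := ph_nonneg h 2
            positivity

lemma w_zero_pos {h : ℝ≥0} (hh : h ≠ 0) (n : ℕ) : 0 < w h n 0 := by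
  have h1 := w_pos hh n 0 (by constructor <;> norm_num)
  have h2 := ph_pos hh 2
  exact lt_of_lt_of_le (by positivity) h1

/-- Jensen's inequality for a log-concave nonincreasing sequence -/
lemma jensen_discrete {p : ℕ → ℝ} (hp : ∀ n, 0 < p n) (hlc : ∀ n, p (n + 2) * p n ≤ p (n + 1) ^ 2)
    (h1 : p 1 ≤ p 0) {ι : Type*} [Fintype ι] (a : ι → ℕ) (c : ℕ)
    (hc : Fintype.card ι * c ≤ ∑ i, a i) : ∏ i, p (a i) ≤ p c ^ Fintype.card ι := by
  set r : ℕ → ℝ := fun n => p (n + 1) / p n with hr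
  have hrpos : ∀ n, 0 < r n := fun n => div_pos (hp _) (hp _)
  have hranti : Antitone r := by
    apply antitone_nat_of_succ_le
    intro n
    show p (n + 1 + 1) / p (n + 1) ≤ p (n + 1) / p n
    rw [div_le_div_iff₀ (hp _) (hp _)]
    have := hlc n
    nlinarith [this]
  have hr1 : ∀ n, r n ≤ 1 := by
    intro n
    refine (hranti (Nat.zero_le n)).trans ?_
    show p (0 + 1) / p 0 ≤ 1
    rw [div_le_one (hp 0)]
    exact h1
  have hstep : ∀ n, p (n + 1) = p n * r n := by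
    intro n
    show p (n + 1) = p n * (p (n + 1) / p n)
    field_simp [(hp n).ne']
  have hup : ∀ k, p (c + k) ≤ p c * r c ^ k := by
    intro k
    induction k with
    | zero => simp
    | succ k ih =>
      rw [← add_assoc, hstep, pow_succ, ← mul_assoc]
      apply mul_le_mul ih (hranti (by omega)) (hrpos _).le
      have := hp c
      have := hrpos c
      positivity
  have hdown : ∀ k, k ≤ c → p (c - k) * r c ^ k ≤ p c := by
    intro k
    induction k with
    | zero => intro _; simp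
    | succ k ih =>
      intro hk
      have h2 := ih (by omega)
      have h3 : c - k = (c - (k + 1)) + 1 := by omega
      have h4 : p (c - k) = p (c - (k + 1)) * r (c - (k + 1)) := by rw [h3, hstep]
      calc p (c - (k + 1)) * r c ^ (k + 1) = (p (c - (k + 1)) * r c) * r c ^ k := by ring
        _ ≤ (p (c - (k + 1)) * r (c - (k + 1))) * r c ^ k := by
            apply mul_le_mul_of_nonneg_right _ (by have := hrpos c; positivity)
            exact mul_le_mul_of_nonneg_left (hranti (by omega)) (hp _).le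
        _ = p (c - k) * r c ^ k := by rw [h4]
        _ ≤ p c := h2
  have hz : ∀ k : ℕ, p k ≤ p c * r c ^ ((k : ℤ) - c) := by
    intro k
    rcases le_total c k with hk | hk
    · obtain ⟨l, rfl⟩ := Nat.exists_eq_add_of_le hk
      have h5 : ((c + l : ℕ) : ℤ) - c = l := by push_cast; ring
      rw [h5, zpow_natCast]
      exact hup l
    · obtain ⟨l, hl⟩ := Nat.exists_eq_add_of_le hk
      have h6 : ((k : ℕ) : ℤ) - c = -(l : ℤ) := by omega
      rw [h6, zpow_neg, zpow_natCast, ← div_eq_mul_inv, le_div_iff₀ (pow_pos (hrpos c) _)]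
      have h7 := hdown l (by omega)
      have h8 : c - l = k := by omega
      rwa [h8] at h7
  calc ∏ i, p (a i) ≤ ∏ i, (p c * r c ^ ((a i : ℤ) - c)) :=
        Finset.prod_le_prod (fun i _ => (hp _).le) fun i _ => hz _
    _ = p c ^ Fintype.card ι * r c ^ (∑ i, ((a i : ℤ) - c)) := by
        rw [Finset.prod_mul_distrib, Finset.prod_const, Finset.card_univ]
        congr 1
        have : ∀ s : Finset ι, ∏ i ∈ s, r c ^ ((a i : ℤ) - c) = r c ^ (∑ i ∈ s, ((a i : ℤ) - c)) := by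
          classical
          intro s
          induction s using Finset.induction_on with
          | empty => simp
          | insert b s hb ih =>
            rw [Finset.prod_insert hb, Finset.sum_insert hb, ih, zpow_add₀ (hrpos c).ne']
        exact this _
    _ ≤ p c ^ Fintype.card ι * 1 := by
        apply mul_le_mul_of_nonneg_left _ (pow_nonneg (hp c).le _)
        have h9 : 0 ≤ ∑ i, ((a i : ℤ) - c) := by
          rw [Finset.sum_sub_distrib, Finset.sum_const, Finset.card_univ, nsmul_eq_mul]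
          have : ((Fintype.card ι * c : ℕ) : ℤ) ≤ ((∑ i, a i : ℕ) : ℤ) := by exact_mod_cast hc
          push_cast at this
          linarith
        exact zpow_le_one₀ (hrpos c) (hr1 c) h9
    _ = _ := mul_one _

/-- exponential upper bound for the exit probability -/
lemma w_upper (h : ℝ≥0) (θ : ℝ) (n : ℕ) : ∀ x : ℝ,
    1 - w h n x ≤ Real.cosh (θ * x) * Real.exp (θ ^ 2 * (n * h) / 2) / Real.cosh θ := by
  induction n with
  | zero =>
    intro x
    have h1 := Real.cosh_pos (θ * x)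
    have h2 := Real.cosh_pos θ
    simp only [w, sub_self]
    positivity
  | succ n ih =>
    intro x
    have hc := Real.cosh_pos θ
    set E : ℝ := Real.exp (θ ^ 2 * (n * h) / 2) with hE
    have hm : Measurable ((Icc (-1 : ℝ) 1).indicator (w h n)) :=
      (w_meas h n).1.indicator measurableSet_Icc
    have hbd := ind_bounds (w_nonneg h n) (w_le_one h n)
    have hi : Integrable (fun u => (Icc (-1 : ℝ) 1).indicator (w h n) (x + u))
        (gaussianReal 0 h) :=
      integrable_of_bdd (hm.comp (measurable_const.add measurable_id)) (fun u => (hbd _).1)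
        fun u => (hbd _).2
    have hexp : ∀ s : ℝ, ∫ u, Real.exp (s * u) ∂(gaussianReal 0 h) =
        Real.exp (h * s ^ 2 / 2) := by
      intro s
      have := congrFun (mgf_id_gaussianReal (μ := 0) (v := h)) s
      simpa [mgf] using this
    have hexpi : ∀ s : ℝ, Integrable (fun u => Real.exp (s * u)) (gaussianReal 0 h) := fun s =>
      integrable_exp_mul_gaussianReal s
    have hcosh : ∀ u : ℝ, Real.cosh (θ * (x + u)) =
        Real.exp (θ * x) / 2 * Real.exp (θ * u) + Real.exp (-(θ * x)) / 2 * Real.exp (-θ * u) := by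
      intro u
      rw [Real.cosh_eq, mul_add, Real.exp_add, neg_add, Real.exp_add]
      ring_nf
    have hci : Integrable (fun u => Real.cosh (θ * (x + u))) (gaussianReal 0 h) := by
      simp_rw [hcosh]
      exact ((hexpi θ).const_mul _).add ((hexpi (-θ)).const_mul _)
    have hcI : ∫ u, Real.cosh (θ * (x + u)) ∂(gaussianReal 0 h) =
        Real.cosh (θ * x) * Real.exp (θ ^ 2 * h / 2) := by
      simp_rw [hcosh]
      rw [integral_add ((hexpi θ).const_mul _) ((hexpi (-θ)).const_mul _), integral_const_mul,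
        integral_const_mul, hexp, hexp, Real.cosh_eq, neg_sq, mul_comm (h : ℝ) (θ ^ 2)]
      ring
    rw [w_succ]
    calc 1 - ∫ u, (Icc (-1 : ℝ) 1).indicator (w h n) (x + u) ∂(gaussianReal 0 h)
        = ∫ u, (1 - (Icc (-1 : ℝ) 1).indicator (w h n) (x + u)) ∂(gaussianReal 0 h) := by
          rw [integral_sub (integrable_const _) hi]; simp
      _ ≤ ∫ u, Real.cosh (θ * (x + u)) * (E / Real.cosh θ) ∂(gaussianReal 0 h) := by
          apply integral_mono ((integrable_const _).sub hi) (hci.mul_const _)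
          intro u
          show 1 - (Icc (-1 : ℝ) 1).indicator (w h n) (x + u) ≤ Real.cosh (θ * (x + u)) * (E / Real.cosh θ)
          by_cases hx : x + u ∈ Icc (-1 : ℝ) 1
          · rw [indicator_of_mem hx]
            have := ih (x + u)
            rwa [mul_div_assoc] at this
          · rw [indicator_of_notMem hx, sub_zero]
            have hgt : 1 ≤ |x + u| := by
              by_contra hcon
              push Not at hcon
              apply hx
              rw [abs_lt] at hcon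
              exact ⟨hcon.1.le, hcon.2.le⟩
            have h3 : Real.cosh θ ≤ Real.cosh (θ * (x + u)) := by
              apply Real.cosh_le_cosh.mpr
              rw [abs_mul]
              nlinarith [abs_nonneg θ]
            have h4 : 1 ≤ E := Real.one_le_exp (by positivity)
            rw [← mul_div_assoc, le_div_iff₀ hc, one_mul]
            nlinarith [Real.cosh_pos (θ * (x + u))]
      _ = Real.cosh (θ * x) * Real.exp (θ ^ 2 * (((n + 1 : ℕ) : ℝ) * h) / 2) / Real.cosh θ := by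
          have hE2 : Real.exp (θ ^ 2 * (((n + 1 : ℕ) : ℝ) * h) / 2) =
              E * Real.exp (θ ^ 2 * h / 2) := by
            rw [hE, ← Real.exp_add]
            congr 1
            push_cast
            ring
          rw [integral_mul_const, hcI, hE2]
          ring

/-! ### Brownian motion on a grid -/

section bm

variable {Ω : Type*} [MeasurableSpace Ω] {P : Measure Ω}

lemma prob_walk (h : ℝ≥0) (n : ℕ) : ∀ (B : ℝ≥0 → Ω → ℝ), IsPreBrownianReal B P → ∀ x : ℝ,
    P {ω | ∀ i ∈ Finset.Icc 1 n, |x + B ((i : ℝ≥0) * h) ω| ≤ 1} = ENNReal.ofReal (w h n x) := by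
  induction n with
  | zero =>
    intro B hB x
    have := hB.isGaussianProcess.isProbabilityMeasure
    simp [w]
  | succ n ih =>
    intro B hB x
    have := hB.isGaussianProcess.isProbabilityMeasure
    set B' : ℝ≥0 → Ω → ℝ := fun t ω => B (h + t) ω - B h ω with hB'
    have hB'p : IsPreBrownianReal B' P := hB.shift h
    set V : Ω → (Fin n → ℝ) := fun ω i => B' (((i : ℕ) + 1 : ℕ) * h) ω with hV
    have hVm : AEMeasurable V P := aemeasurable_pi_lambda _ fun i => hB'p.aemeasurable _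
    have hBm : AEMeasurable (B h) P := hB.aemeasurable h
    set S : Set (ℝ × (Fin n → ℝ)) := {q | |x + q.1| ≤ 1 ∧ ∀ i, |x + q.1 + q.2 i| ≤ 1} with hS
    have hSm : MeasurableSet S := by
      have : S = {q | |x + q.1| ≤ 1} ∩ ⋂ i, {q | |x + q.1 + q.2 i| ≤ 1} := by
        ext q; simp [hS]
      rw [this]
      refine MeasurableSet.inter ?_ (MeasurableSet.iInter fun i => ?_)
      · exact measurableSet_le (by fun_prop) measurable_const
      · exact measurableSet_le (by fun_prop) measurable_const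
    have hset : {ω | ∀ i ∈ Finset.Icc 1 (n + 1), |x + B ((i : ℝ≥0) * h) ω| ≤ 1} =
        (fun ω => (B h ω, V ω)) ⁻¹' S := by
      ext ω
      simp only [Set.mem_ofPred_eq, mem_preimage, hS, Finset.mem_Icc]
      have hadd : ∀ i : ℕ, B ((((i + 1 : ℕ) : ℝ≥0)) * h) ω = B h ω + B' ((i : ℝ≥0) * h) ω := by
        intro i
        simp only [hB']
        rw [show h + (i : ℝ≥0) * h = ((i + 1 : ℕ) : ℝ≥0) * h by push_cast; ring]
        ring
      constructor
      · intro H
        constructor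
        · have := H 1 ⟨le_rfl, by omega⟩
          simpa using this
        · intro i
          have := H ((i : ℕ) + 1 + 1) ⟨by omega, by omega⟩
          rw [hadd] at this
          simp only [hV]
          rw [add_assoc]
          exact this
      · rintro ⟨H1, H2⟩ i ⟨hi1, hi2⟩
        obtain ⟨k, rfl⟩ : ∃ k, i = k + 1 := ⟨i - 1, by omega⟩
        rcases Nat.eq_zero_or_pos k with rfl | hk
        · simpa using H1
        · obtain ⟨l, rfl⟩ : ∃ l, k = l + 1 := ⟨k - 1, by omega⟩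
          rw [hadd, ← add_assoc]
          exact H2 ⟨l, by omega⟩
    have hind : IndepFun (B h) V P := by
      have h1 := (hB.indepFun_shift h).symm
      have hφ : Measurable (fun g : (Set.Iic h → ℝ) => g ⟨h, Set.mem_Iic.mpr le_rfl⟩) := by
        fun_prop
      have hψ : Measurable (fun f : (ℝ≥0 → ℝ) => fun i : Fin n => f (((i : ℕ) + 1 : ℕ) * h)) := by
        fun_prop
      have h2 := h1.comp hφ hψ
      exact h2
    have hmap := (indepFun_iff_map_prod_eq_prod_map_map hBm hVm).mp hind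
    have hlawB : P.map (B h) = gaussianReal 0 h := (hB.hasLaw_eval h).map_eq
    rw [hset, ← Measure.map_apply_of_aemeasurable (hBm.prodMk hVm) hSm, hmap, hlawB,
      Measure.prod_apply hSm, w_succ]
    have hm : Measurable ((Icc (-1 : ℝ) 1).indicator (w h n)) :=
      (w_meas h n).1.indicator measurableSet_Icc
    have hbd := ind_bounds (w_nonneg h n) (w_le_one h n)
    rw [ofReal_integral_eq_lintegral_ofReal]
    · apply lintegral_congr
      intro u
      rw [Measure.map_apply_of_aemeasurable hVm (measurable_prodMk_left hSm)]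
      by_cases hx : x + u ∈ Icc (-1 : ℝ) 1
      · rw [indicator_of_mem hx, ← ih B' hB'p (x + u)]
        congr 1
        ext ω
        simp only [hS, hV, mem_preimage, Set.mem_ofPred_eq, Finset.mem_Icc]
        constructor
        · rintro ⟨_, H⟩ i ⟨hi1, hi2⟩
          have := H ⟨i - 1, by omega⟩
          simp only at this
          rwa [Nat.sub_add_cancel hi1] at this
        · intro H
          refine ⟨abs_le.mpr hx, fun i => ?_⟩
          exact H ((i : ℕ) + 1) ⟨by omega, by omega⟩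
      · rw [indicator_of_notMem hx, ENNReal.ofReal_zero]
        have : V ⁻¹' (Prod.mk u ⁻¹' S) = ∅ := by
          ext ω
          simp only [hS, mem_preimage, Set.mem_ofPred_eq, mem_empty_iff_false, iff_false, not_and]
          intro H
          exact absurd (abs_le.mp H) hx
        rw [this, measure_empty]
    · exact integrable_of_bdd (hm.comp (measurable_const.add measurable_id)) (fun u => (hbd _).1)
        fun u => (hbd _).2
    · exact ae_of_all _ fun u => (hbd _).1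

end bm

/-! ### Path events -/

/-- `|f| ≤ a` at all dyadic times up to `t` -/
def Gd (t : ℝ≥0) (a : ℝ) : Set (ℝ≥0 → ℝ) :=
  {f | ∀ m : ℕ, ∀ i : ℕ, i ≤ ⌊t * 2 ^ m⌋₊ → |f (i / 2 ^ m)| ≤ a}

/-- the sequence `q_l ↑ 1` -/
noncomputable def ql (l : ℕ) : ℝ≥0 := (l + 1) / (l + 2)

lemma ql_pos (l : ℕ) : 0 < ql l := by unfold ql; positivity

lemma ql_lt (l : ℕ) : ql l < 1 := by
  unfold ql
  rw [div_lt_one (by positivity)]
  exact add_lt_add_right (by norm_num) _

lemma ql_mono : Monotone ql := by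
  apply monotone_nat_of_le_succ
  intro l
  unfold ql
  rw [div_le_div_iff₀ (by positivity) (by positivity)]
  rw [← NNReal.coe_le_coe]
  push_cast
  nlinarith

lemma ql_tendsto : Tendsto (fun l => (ql l : ℝ)) atTop (𝓝 1) := by
  have h1 : ∀ l : ℕ, (ql l : ℝ) = 1 - 1 / ((l:ℝ) + 1 + 1) := by
    intro l
    unfold ql
    push_cast
    field_simp
    ring
  simp_rw [h1]
  have h2 := (tendsto_add_atTop_iff_nat 1).mpr (tendsto_one_div_add_atTop_nhds_zero_nat (𝕜 := ℝ))
  have h3 := h2.const_sub 1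
  simpa using h3

/-- `|f| < a` (uniformly) at all dyadic times up to `t` -/
def Op (t : ℝ≥0) (a : ℝ) : Set (ℝ≥0 → ℝ) := ⋃ l : ℕ, Gd t (ql l * a)

lemma meas_Gd (t : ℝ≥0) (a : ℝ) : MeasurableSet (Gd t a) := by
  have : Gd t a = ⋂ m : ℕ, ⋂ i : ℕ, ⋂ _ : i ≤ ⌊t * 2 ^ m⌋₊, {f | |f (i / 2 ^ m)| ≤ a} := by
    ext f; simp [Gd]
  rw [this]
  refine MeasurableSet.iInter fun m => MeasurableSet.iInter fun i => MeasurableSet.iInter fun _ => ?_
  exact measurableSet_le (by fun_prop) measurable_const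

lemma meas_Op (t : ℝ≥0) (a : ℝ) : MeasurableSet (Op t a) :=
  MeasurableSet.iUnion fun l => meas_Gd _ _

lemma dyadic_le (t : ℝ≥0) (m i : ℕ) (hi : i ≤ ⌊t * 2 ^ m⌋₊) : (i / 2 ^ m : ℝ≥0) ≤ t := by
  rw [div_le_iff₀ (by positivity)]
  exact (Nat.cast_le.mpr hi).trans (Nat.floor_le (by positivity))

lemma dyadic_tendsto (s : ℝ≥0) :
    Tendsto (fun m : ℕ => ((⌊s * 2 ^ m⌋₊ : ℝ≥0) / 2 ^ m)) atTop (𝓝 s) := by
  have h1 : Tendsto (fun m : ℕ => s - 1 / 2 ^ m) atTop (𝓝 (s - 0)) := by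
    apply Tendsto.sub tendsto_const_nhds
    have : Tendsto (fun m : ℕ => ((1:ℝ≥0) / 2) ^ m) atTop (𝓝 0) :=
      tendsto_pow_atTop_nhds_zero_of_lt_one (by positivity) (by
        rw [div_lt_one (by positivity)]; exact one_lt_two)
    simpa [div_pow] using this
  rw [tsub_zero] at h1
  refine tendsto_of_tendsto_of_tendsto_of_le_of_le h1 tendsto_const_nhds ?_ ?_
  · intro m
    simp only
    rw [tsub_le_iff_right, ← add_div, le_div_iff₀ (by positivity)]
    exact (Nat.lt_floor_add_one _).le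
  · intro m
    exact dyadic_le s m _ le_rfl

lemma mem_Gd_iff {f : ℝ≥0 → ℝ} (hf : Continuous f) (t : ℝ≥0) (a : ℝ) :
    f ∈ Gd t a ↔ ∀ s ≤ t, |f s| ≤ a := by
  constructor
  · intro h s hs
    have h1 : Tendsto (fun m : ℕ => |f ((⌊s * 2 ^ m⌋₊ : ℝ≥0) / 2 ^ m)|) atTop (𝓝 |f s|) :=
      (hf.abs.tendsto s).comp (dyadic_tendsto s)
    refine le_of_tendsto' h1 fun m => h m _ ?_
    apply Nat.floor_mono
    gcongr
  · intro h m i hi
    exact h _ (dyadic_le t m i hi)

lemma mem_Op_iff {f : ℝ≥0 → ℝ} (hf : Continuous f) (t : ℝ≥0) {a : ℝ} (ha : 0 < a) :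
    f ∈ Op t a ↔ ∀ s ≤ t, |f s| < a := by
  unfold Op
  rw [mem_iUnion]
  constructor
  · rintro ⟨l, hl⟩ s hs
    rw [mem_Gd_iff hf] at hl
    have h1 := hl s hs
    have h2 : (ql l : ℝ) < 1 := by exact_mod_cast ql_lt l
    nlinarith
  · intro h
    obtain ⟨s0, hs0, hmax⟩ := (isCompact_Icc (a := (0:ℝ≥0)) (b := t)).exists_isMaxOn
      ⟨0, by simp⟩ hf.abs.continuousOn
    have h1 : |f s0| < a := h s0 hs0.2
    have h2 : Tendsto (fun l => (ql l : ℝ) * a) atTop (𝓝 (1 * a)) := ql_tendsto.mul_const a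
    rw [one_mul] at h2
    obtain ⟨l, hl⟩ := (h2.eventually (lt_mem_nhds h1)).exists
    refine ⟨l, (mem_Gd_iff hf _ _).mpr fun s hs => ?_⟩
    exact (hmax (show s ∈ Icc 0 t from ⟨zero_le, hs⟩)).trans hl.le

/-! ### The survival functions -/

lemma w_anti (h : ℝ≥0) (n : ℕ) : ∀ x, w h (n + 1) x ≤ w h n x := by
  induction n with
  | zero => intro x; simpa [w] using w_le_one h 1 x
  | succ n ih =>
    intro x
    rw [w_succ h (n + 1), w_succ h n]
    have hbd := fun k => ind_bounds (w_nonneg h k) (w_le_one h k)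
    have hi : ∀ k, Integrable (fun u => (Icc (-1 : ℝ) 1).indicator (w h k) (x + u))
        (gaussianReal 0 h) := fun k =>
      integrable_of_bdd (((w_meas h k).1.indicator measurableSet_Icc).comp
        (measurable_const.add measurable_id)) (fun u => (hbd k _).1) fun u => (hbd k _).2
    apply integral_mono (hi _) (hi _)
    intro u
    exact indicator_le_indicator (ih _)

lemma w_anti' (h : ℝ≥0) (x : ℝ) : Antitone (fun n => w h n x) :=
  antitone_nat_of_succ_le fun n => w_anti h n x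

/-- `P(|B| ≤ 1 on [0,t])` -/
noncomputable def Fb (t : ℝ≥0) : ℝ := ⨅ m : ℕ, w (1 / 2 ^ m) ⌊t * 2 ^ m⌋₊ 0

/-- `P(|B| < 1 on [0,t])` -/
noncomputable def F (t : ℝ≥0) : ℝ := ⨆ l : ℕ, Fb (t / (ql l) ^ 2)

lemma Fb_bdd (t : ℝ≥0) : BddBelow (range fun m : ℕ => w (1 / 2 ^ m) ⌊t * 2 ^ m⌋₊ 0) :=
  ⟨0, by rintro _ ⟨m, rfl⟩; exact w_nonneg _ _ _⟩

lemma Fb_le (t : ℝ≥0) (m : ℕ) : Fb t ≤ w (1 / 2 ^ m) ⌊t * 2 ^ m⌋₊ 0 := ciInf_le (Fb_bdd t) m

lemma Fb_nonneg (t : ℝ≥0) : 0 ≤ Fb t := le_ciInf fun _ => w_nonneg _ _ _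

lemma Fb_le_one (t : ℝ≥0) : Fb t ≤ 1 := (Fb_le t 0).trans (w_le_one _ _ _)

lemma Fb_anti : Antitone Fb := by
  intro s t hst
  refine le_ciInf fun m => (Fb_le t m).trans ?_
  apply w_anti'
  apply Nat.floor_mono
  gcongr

lemma F_bdd (t : ℝ≥0) : BddAbove (range fun l : ℕ => Fb (t / (ql l) ^ 2)) :=
  ⟨1, by rintro _ ⟨m, rfl⟩; exact Fb_le_one _⟩

lemma le_F (t : ℝ≥0) (l : ℕ) : Fb (t / (ql l) ^ 2) ≤ F t := le_ciSup (F_bdd t) l

lemma F_nonneg (t : ℝ≥0) : 0 ≤ F t := (Fb_nonneg _).trans (le_F t 0)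

lemma F_le_Fb (t : ℝ≥0) : F t ≤ Fb t := by
  refine ciSup_le fun l => Fb_anti ?_
  rw [le_div_iff₀ (by have := ql_pos l; positivity)]
  exact mul_le_of_le_one_right zero_le (pow_le_one₀ zero_le (ql_lt l).le)

lemma F_le_one (t : ℝ≥0) : F t ≤ 1 := (F_le_Fb t).trans (Fb_le_one t)

lemma F_anti : Antitone F := by
  intro s t hst
  refine ciSup_le fun l => le_trans (Fb_anti ?_) (le_F s l)
  gcongr

lemma F_tendsto (t : ℝ≥0) : Tendsto (fun l => Fb (t / (ql l) ^ 2)) atTop (𝓝 (F t)) := by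
  apply tendsto_atTop_ciSup
  · intro a b hab
    apply Fb_anti
    have := ql_mono hab
    have := ql_pos a
    gcongr
  · exact F_bdd t

lemma Fb_le_F {t t' : ℝ≥0} (h : t < t') : Fb t' ≤ F t := by
  have h1 : Tendsto (fun l => (t : ℝ) / (ql l : ℝ) ^ 2) atTop (𝓝 (t / 1 ^ 2)) :=
    Tendsto.div tendsto_const_nhds (ql_tendsto.pow 2) (by norm_num)
  rw [one_pow, div_one] at h1
  have h2 : (t : ℝ) < t' := by exact_mod_cast h
  obtain ⟨l, hl⟩ := (h1.eventually (gt_mem_nhds h2)).exists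
  refine le_trans (Fb_anti ?_) (le_F t l)
  rw [← NNReal.coe_le_coe]
  push_cast
  exact hl.le

lemma F_zero : F 0 = 1 := by
  apply le_antisymm (F_le_one 0)
  refine le_trans ?_ (le_F 0 0)
  refine le_ciInf fun m => ?_
  simp [w]

section bm2

variable {Ω : Type*} [MeasurableSpace Ω] {P : Measure Ω} {B : ℝ≥0 → Ω → ℝ}

lemma ae_good (hB : IsBrownianReal B P) : ∀ᵐ ω ∂P, Continuous (B · ω) ∧ B 0 ω = 0 :=
  hB.cont.and hB.eval_zero_ae_eq_zero

lemma nm_le (hB : IsPreBrownianReal B P) (s : ℝ≥0) (x a : ℝ) :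
    NullMeasurableSet {ω | |x + B s ω| ≤ a} P := by
  have h1 : AEMeasurable (fun ω => |x + B s ω|) P :=
    (measurable_norm.comp_aemeasurable ((hB.aemeasurable s).const_add x))
  exact nullMeasurableSet_le h1 aemeasurable_const

/-- convergence of the grid probabilities -/
lemma tendsto_grid (hB : IsBrownianReal B P) (t : ℝ≥0) :
    Tendsto (fun m : ℕ => w (1 / 2 ^ m) ⌊t * 2 ^ m⌋₊ 0) atTop (𝓝 (Fb t)) ∧
      P {ω | (B · ω) ∈ Gd t 1} = ENNReal.ofReal (Fb t) := by
  have := hB.isGaussianProcess.isProbabilityMeasure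
  set A : ℕ → Set Ω := fun m => {ω | ∀ i ∈ Finset.Icc 1 ⌊t * 2 ^ m⌋₊,
    |0 + B ((i : ℝ≥0) * (1 / 2 ^ m)) ω| ≤ 1} with hA
  have hAP : ∀ m, P (A m) = ENNReal.ofReal (w (1 / 2 ^ m) ⌊t * 2 ^ m⌋₊ 0) := fun m =>
    prob_walk (1 / 2 ^ m) _ B hB.toIsPreBrownianReal 0
  have hAnm : ∀ m, NullMeasurableSet (A m) P := by
    intro m
    have : A m = ⋂ i ∈ Finset.Icc 1 ⌊t * 2 ^ m⌋₊,
        {ω | |0 + B ((i : ℝ≥0) * (1 / 2 ^ m)) ω| ≤ 1} := by
      ext ω; simp [hA]
    rw [this]
    exact Finset.nullMeasurableSet_biInter _ fun i _ => nm_le hB.toIsPreBrownianReal _ _ _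
  have hanti : Antitone A := by
    apply antitone_nat_of_succ_le
    intro m ω hω i hi
    rw [Finset.mem_Icc] at hi
    have h1 := hω (2 * i) (by
      rw [Finset.mem_Icc]
      refine ⟨by omega, ?_⟩
      apply Nat.le_floor
      have h2 : (i : ℝ≥0) ≤ t * 2 ^ m := (Nat.cast_le.mpr hi.2).trans (Nat.floor_le zero_le)
      push_cast
      rw [pow_succ]
      calc (2:ℝ≥0) * i ≤ 2 * (t * 2 ^ m) := by gcongr
        _ = t * (2 ^ m * 2) := by ring)
    have h3 : ((2 * i : ℕ) : ℝ≥0) * (1 / 2 ^ (m + 1)) = (i : ℝ≥0) * (1 / 2 ^ m) := by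
      push_cast
      rw [pow_succ]
      field_simp
    rwa [h3] at h1
  have hset : {ω | (B · ω) ∈ Gd t 1} =ᵐ[P] (⋂ m, A m : Set Ω) := by
    filter_upwards [ae_good hB] with ω hω
    apply propext
    change ((B · ω) ∈ Gd t 1) ↔ ω ∈ ⋂ m, A m
    simp only [mem_iInter, hA, Gd, Set.mem_ofPred_eq, zero_add, Finset.mem_Icc, mul_one_div]
    constructor
    · intro h m i hi
      exact h m i hi.2
    · intro h m i hi
      rcases Nat.eq_zero_or_pos i with rfl | hi0
      · simp [hω.2]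
      · exact h m i ⟨hi0, hi⟩
  have hlim := tendsto_measure_iInter_atTop hAnm hanti ⟨0, measure_ne_top _ _⟩
  have hfun : (P ∘ A) = fun m => ENNReal.ofReal (w (1 / 2 ^ m) ⌊t * 2 ^ m⌋₊ 0) := by
    funext m; exact hAP m
  rw [hfun] at hlim
  have hwanti : Antitone fun m : ℕ => w (1 / 2 ^ m) ⌊t * 2 ^ m⌋₊ 0 := by
    intro a b hab
    have h1 := measure_mono (μ := P) (hanti hab)
    rw [hAP, hAP, ENNReal.ofReal_le_ofReal_iff (w_nonneg _ _ _)] at h1
    exact h1
  have hlim2 : Tendsto (fun m : ℕ => w (1 / 2 ^ m) ⌊t * 2 ^ m⌋₊ 0) atTop (𝓝 (Fb t)) :=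
    tendsto_atTop_ciInf hwanti (Fb_bdd t)
  refine ⟨hlim2, ?_⟩
  rw [measure_congr hset]
  exact tendsto_nhds_unique hlim (ENNReal.tendsto_ofReal hlim2)

/-- scaling -/
lemma prob_Gd (hB : IsBrownianReal B P) (t : ℝ≥0) {a : ℝ≥0} (ha : a ≠ 0) :
    P {ω | (B · ω) ∈ Gd t a} = ENNReal.ofReal (Fb (t / a ^ 2)) := by
  have hc : a ^ 2 ≠ 0 := pow_ne_zero _ ha
  have hB' := hB.smul hc
  rw [← (tendsto_grid hB' (t / a ^ 2)).2]
  apply measure_congr
  filter_upwards [hB.cont, hB'.cont] with ω h1 h2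
  apply propext
  change ((B · ω) ∈ Gd t a) ↔ ((fun s => (√((a ^ 2 : ℝ≥0) : ℝ))⁻¹ * B (a ^ 2 * s) ω) ∈ Gd (t / a ^ 2) 1)
  rw [mem_Gd_iff h1, mem_Gd_iff h2]
  have hsq : √((a ^ 2 : ℝ≥0) : ℝ) = a := by
    push_cast
    exact Real.sqrt_sq a.2
  have hapos : (0:ℝ) < a := by
    have : 0 < a := pos_iff_ne_zero.mpr ha
    exact_mod_cast this
  constructor
  · intro h s hs
    rw [hsq, abs_mul, abs_inv, abs_of_pos hapos, inv_mul_le_one₀ hapos]
    apply h
    rw [le_div_iff₀ (by positivity)] at hs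
    rwa [mul_comm]
  · intro h s hs
    have h3 := h (s / a ^ 2) (by gcongr)
    rw [mul_div_cancel₀ s hc, hsq, abs_mul, abs_inv, abs_of_pos hapos, inv_mul_le_one₀ hapos] at h3
    exact h3

lemma prob_Op (hB : IsBrownianReal B P) (t : ℝ≥0) {a : ℝ≥0} (ha : a ≠ 0) :
    P {ω | (B · ω) ∈ Op t a} = ENNReal.ofReal (F (t / a ^ 2)) := by
  have := hB.isGaussianProcess.isProbabilityMeasure
  have hset : {ω | (B · ω) ∈ Op t a} = ⋃ l : ℕ, {ω | (B · ω) ∈ Gd t (ql l * a)} := by
    ext ω; simp [Op]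
  have hmono : Monotone fun l : ℕ => {ω | (B · ω) ∈ Gd t (ql l * a)} := by
    intro l l' hl ω hω m i hi
    refine (hω m i hi).trans ?_
    have : (ql l : ℝ) ≤ ql l' := by exact_mod_cast ql_mono hl
    exact mul_le_mul_of_nonneg_right this a.2
  have hlim := tendsto_measure_iUnion_atTop (μ := P) hmono
  rw [← hset] at hlim
  have hfun : (P ∘ fun l : ℕ => {ω | (B · ω) ∈ Gd t (ql l * a)}) =
      fun l => ENNReal.ofReal (Fb ((t / a ^ 2) / (ql l) ^ 2)) := by
    funext l
    have h1 := prob_Gd hB t (a := ql l * a) (mul_ne_zero (ql_pos l).ne' ha)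
    push_cast at h1
    simp only [Function.comp]
    rw [h1, mul_pow, div_div, mul_comm (a ^ 2)]
  rw [hfun] at hlim
  exact tendsto_nhds_unique hlim (ENNReal.tendsto_ofReal (F_tendsto _))

end bm2

/-! ### Jensen's inequality for the survival functions -/

/-- the convergence supplied by a Brownian motion -/
def HT : Prop := ∀ t : ℝ≥0, Tendsto (fun m : ℕ => w (1 / 2 ^ m) ⌊t * 2 ^ m⌋₊ 0) atTop (𝓝 (Fb t))

lemma jensen_Fb (hT : HT) {ι : Type*} [Fintype ι] (s : ι → ℝ≥0) (c : ℝ≥0)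
    (hc : (Fintype.card ι : ℝ) * c < ∑ i, (s i : ℝ)) :
    ∏ i, Fb (s i) ≤ Fb c ^ Fintype.card ι := by
  have h1 : Tendsto (fun m : ℕ => ∏ i, w (1 / 2 ^ m) ⌊s i * 2 ^ m⌋₊ 0) atTop
      (𝓝 (∏ i, Fb (s i))) := tendsto_finset_prod _ fun i _ => hT (s i)
  have h2 : Tendsto (fun m : ℕ => (w (1 / 2 ^ m) ⌊c * 2 ^ m⌋₊ 0) ^ Fintype.card ι) atTop
      (𝓝 (Fb c ^ Fintype.card ι)) := (hT c).pow _
  apply le_of_tendsto_of_tendsto h1 h2
  have h3 : Tendsto (fun m : ℕ => (2:ℝ) ^ m) atTop atTop :=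
    tendsto_pow_atTop_atTop_of_one_lt one_lt_two
  filter_upwards [h3.eventually_ge_atTop ((Fintype.card ι : ℝ) /
    (∑ i, (s i : ℝ) - (Fintype.card ι : ℝ) * c))] with m hm
  have hh : (1 / 2 ^ m : ℝ≥0) ≠ 0 := by positivity
  apply jensen_discrete (p := fun n => w (1 / 2 ^ m) n 0) (fun n => w_zero_pos hh n)
    (fun n => w_logconcave hh n) (w_anti _ 0 0) (fun i => ⌊s i * 2 ^ m⌋₊) ⌊c * 2 ^ m⌋₊
  rw [div_le_iff₀ (by linarith)] at hm
  have h4 : ((⌊c * 2 ^ m⌋₊ : ℕ) : ℝ) ≤ c * 2 ^ m := by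
    have h := Nat.floor_le (a := c * 2 ^ m) zero_le
    have h' : (((⌊c * 2 ^ m⌋₊ : ℕ) : ℝ≥0) : ℝ) ≤ ((c * 2 ^ m : ℝ≥0) : ℝ) := by exact_mod_cast h
    push_cast at h'
    exact h'
  have h5 : ∀ i, (s i : ℝ) * 2 ^ m - 1 ≤ ((⌊s i * 2 ^ m⌋₊ : ℕ) : ℝ) := by
    intro i
    have h := (Nat.lt_floor_add_one (s i * 2 ^ m)).le
    have h' : ((s i * 2 ^ m : ℝ≥0) : ℝ) ≤ (((⌊s i * 2 ^ m⌋₊ : ℕ) + 1 : ℝ≥0) : ℝ) := by
      exact_mod_cast h
    push_cast at h'
    linarith
  have h6 : ((Fintype.card ι * ⌊c * 2 ^ m⌋₊ : ℕ) : ℝ) ≤ ((∑ i, ⌊s i * 2 ^ m⌋₊ : ℕ) : ℝ) := by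
    push_cast
    calc (Fintype.card ι : ℝ) * (⌊c * 2 ^ m⌋₊ : ℕ) ≤ (Fintype.card ι : ℝ) * (c * 2 ^ m) :=
          mul_le_mul_of_nonneg_left h4 (by positivity)
      _ ≤ ∑ i, ((s i : ℝ) * 2 ^ m - 1) := by
          rw [Finset.sum_sub_distrib, ← Finset.sum_mul, Finset.sum_const, Finset.card_univ,
            nsmul_eq_mul]
          nlinarith
      _ ≤ _ := Finset.sum_le_sum fun i _ => h5 i
  exact_mod_cast h6

lemma jensen_F (hT : HT) {ι : Type*} [Fintype ι] (s : ι → ℝ≥0) (c : ℝ≥0)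
    (hc : (Fintype.card ι : ℝ) * c ≤ ∑ i, (s i : ℝ)) :
    ∏ i, F (s i) ≤ F c ^ Fintype.card ι := by
  rcases eq_or_ne (Fintype.card ι) 0 with h0 | h0
  · have : IsEmpty ι := Fintype.card_eq_zero_iff.mp h0
    simp
  rcases eq_or_ne c 0 with rfl | hc0
  · rw [F_zero, one_pow]
    exact Finset.prod_le_one (fun i _ => F_nonneg _) fun i _ => F_le_one _
  have hcpos : (0:ℝ) < c := by
    have : 0 < c := pos_iff_ne_zero.mpr hc0
    exact_mod_cast this
  have hcard : (0:ℝ) < Fintype.card ι := by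
    have : 0 < Fintype.card ι := Nat.pos_of_ne_zero h0
    exact_mod_cast this
  have h1 : Tendsto (fun l : ℕ => ∏ i, Fb (s i / (ql l) ^ 2)) atTop (𝓝 (∏ i, F (s i))) :=
    tendsto_finset_prod _ fun i _ => F_tendsto (s i)
  refine le_of_tendsto' h1 fun l => ?_
  have hq0 : (0:ℝ) < ql l := by exact_mod_cast ql_pos l
  have hq1 : (ql l : ℝ) < 1 := by exact_mod_cast ql_lt l
  have hlt : c < c / ql l := by
    rw [lt_div_iff₀ (ql_pos l)]
    rw [← NNReal.coe_lt_coe]
    push_cast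
    nlinarith
  calc ∏ i, Fb (s i / (ql l) ^ 2) ≤ Fb (c / ql l) ^ Fintype.card ι := by
        apply jensen_Fb hT
        push_cast
        rw [← Finset.sum_div]
        have h2 : 0 < ∑ i, (s i : ℝ) := lt_of_lt_of_le (by positivity) hc
        calc (Fintype.card ι : ℝ) * (c / ql l) = (Fintype.card ι : ℝ) * c / ql l := by ring
          _ ≤ (∑ i, (s i : ℝ)) / ql l := by gcongr
          _ < (∑ i, (s i : ℝ)) / (ql l : ℝ) ^ 2 := by
              apply div_lt_div_of_pos_left h2 (by positivity)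
              nlinarith
    _ ≤ F c ^ Fintype.card ι := by
        apply pow_le_pow_left₀ (Fb_nonneg _)
        exact Fb_le_F hlt

/-! ### Bounds -/

lemma w_one_eq {h : ℝ≥0} (hh : h ≠ 0) : w h 1 0 = ∫ y in (-1:ℝ)..1, ph h y := by
  rw [w_succ' hh]
  simp [w]

lemma w_one_le {h : ℝ≥0} (hh : h ≠ 0) {δ : ℝ} (hδ : 0 ≤ δ) : w h 1 0 ≤ 1 - δ * ph h (1 + δ) := by
  rw [w_one_eq hh]
  have h1 : ∫ y in (-1:ℝ)..(1 + δ), ph h y ≤ 1 := by
    rw [intervalIntegral.integral_of_le (by linarith), ← integral_gaussianPDFReal_eq_one 0 hh]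
    exact setIntegral_le_integral (integrable_gaussianPDFReal 0 h)
      (ae_of_all _ fun y => gaussianPDFReal_nonneg 0 h y)
  have h2 : ∫ y in (-1:ℝ)..(1 + δ), ph h y =
      (∫ y in (-1:ℝ)..1, ph h y) + ∫ y in (1:ℝ)..(1 + δ), ph h y :=
    (intervalIntegral.integral_add_adjacent_intervals (ph_int h _ _) (ph_int h _ _)).symm
  have h3 : δ * ph h (1 + δ) ≤ ∫ y in (1:ℝ)..(1 + δ), ph h y := by
    calc δ * ph h (1 + δ) = ∫ y in (1:ℝ)..(1 + δ), ph h (1 + δ) := by
          rw [intervalIntegral.integral_const, smul_eq_mul]; ring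
      _ ≤ _ := by
          apply intervalIntegral.integral_mono_on (by linarith) intervalIntegrable_const
            (ph_int h _ _)
          intro y hy
          apply ph_anti
          rw [abs_of_nonneg (by linarith [hy.1]), abs_of_nonneg (by linarith)]
          exact hy.2
  linarith

/-- `ρ < 1` -/
noncomputable def ρ : ℝ := w 1 1 0

lemma ρ_lt : ρ < 1 := by
  have h1 := w_one_le (h := 1) one_ne_zero (δ := 1) zero_le_one
  have h2 := ph_pos (h := 1) one_ne_zero (1 + 1)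
  unfold ρ
  linarith

lemma ρ_pos : 0 < ρ := w_zero_pos one_ne_zero 1

lemma w_geom (n : ℕ) : w 1 n 0 ≤ ρ ^ n := by
  have key : ∀ n, w 1 (n + 1) 0 ≤ w 1 n 0 * ρ := by
    intro n
    induction n with
    | zero => simp [w, ρ]
    | succ n ih =>
      have h1 := w_logconcave (h := 1) one_ne_zero n
      have h2 := w_zero_pos (h := 1) one_ne_zero n
      have h3 := w_zero_pos (h := 1) one_ne_zero (n + 1)
      have h4 : w 1 (n + 2) 0 * w 1 n 0 ≤ (w 1 (n + 1) 0 * ρ) * w 1 n 0 := by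
        calc w 1 (n + 2) 0 * w 1 n 0 ≤ w 1 (n + 1) 0 ^ 2 := h1
          _ = w 1 (n + 1) 0 * w 1 (n + 1) 0 := by ring
          _ ≤ w 1 (n + 1) 0 * (w 1 n 0 * ρ) := mul_le_mul_of_nonneg_left ih h3.le
          _ = _ := by ring
      exact le_of_mul_le_mul_right h4 h2
  induction n with
  | zero => simp [w]
  | succ n ih =>
    rw [pow_succ]
    exact (key n).trans (mul_le_mul_of_nonneg_right ih ρ_pos.le)

lemma F_exp (t : ℝ≥0) : F t ≤ ρ ^ ⌊t⌋₊ := by
  refine (F_le_Fb t).trans ((Fb_le t 0).trans ?_)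
  simpa using w_geom ⌊t⌋₊

lemma Fb_lower {t : ℝ≥0} (ht : t ≠ 0) : 1 - 2 * Real.exp (-(1 / (2 * (t : ℝ)))) ≤ Fb t := by
  have htpos : (0:ℝ) < t := by
    have : 0 < t := pos_iff_ne_zero.mpr ht
    exact_mod_cast this
  refine le_ciInf fun m => ?_
  have h1 := w_upper (1 / 2 ^ m) (1 / (t:ℝ)) ⌊t * 2 ^ m⌋₊ 0
  rw [mul_zero, Real.cosh_zero, one_mul] at h1
  have h2 : ((⌊t * 2 ^ m⌋₊ : ℕ) : ℝ) * ((1 / 2 ^ m : ℝ≥0) : ℝ) ≤ t := by
    have h := dyadic_le t m _ le_rfl
    have h' : (((⌊t * 2 ^ m⌋₊ : ℕ) / 2 ^ m : ℝ≥0) : ℝ) ≤ (t : ℝ) := by exact_mod_cast h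
    push_cast at h' ⊢
    rw [mul_one_div]
    exact h'
  have h3 : Real.exp ((1 / (t:ℝ)) ^ 2 * (((⌊t * 2 ^ m⌋₊ : ℕ) : ℝ) * ((1 / 2 ^ m : ℝ≥0) : ℝ)) / 2)
      ≤ Real.exp (1 / (2 * (t : ℝ))) := by
    apply Real.exp_le_exp.mpr
    calc (1 / (t:ℝ)) ^ 2 * (((⌊t * 2 ^ m⌋₊ : ℕ) : ℝ) * ((1 / 2 ^ m : ℝ≥0) : ℝ)) / 2
        ≤ (1 / (t:ℝ)) ^ 2 * t / 2 := by gcongr
      _ = 1 / (2 * (t : ℝ)) := by field_simp
  have h4 : Real.exp (1 / (t:ℝ)) / 2 ≤ Real.cosh (1 / (t:ℝ)) := by
    rw [Real.cosh_eq]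
    have := Real.exp_pos (-(1 / (t:ℝ)))
    linarith
  have h5 : Real.exp ((1 / (t:ℝ)) ^ 2 * (((⌊t * 2 ^ m⌋₊ : ℕ) : ℝ) *
      ((1 / 2 ^ m : ℝ≥0) : ℝ)) / 2) / Real.cosh (1 / (t:ℝ)) ≤
      2 * Real.exp (-(1 / (2 * (t : ℝ)))) := by
    calc _ ≤ Real.exp (1 / (2 * (t : ℝ))) / (Real.exp (1 / (t:ℝ)) / 2) := by
          gcongr
      _ = 2 * Real.exp (-(1 / (2 * (t : ℝ)))) := by
          rw [div_div_eq_mul_div, mul_comm, mul_div_assoc, ← Real.exp_sub]
          congr 2
          field_simp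
          ring
  linarith

lemma strict_small (hUp : ∀ t : ℝ≥0, t ≠ 0 → Fb t ≤ w t 1 0) {s c : ℝ≥0} (hc : c ≠ 0) (hcs : c < s)
    {d : ℕ} (hd : 0 < d) : ∃ t0 : ℝ, 0 < t0 ∧ ∀ t : ℝ≥0, t ≠ 0 → (t : ℝ) ≤ t0 →
      F (s * t) < F (c * t) ^ d := by
  have hcpos : (0:ℝ) < c := by
    have : 0 < c := pos_iff_ne_zero.mpr hc
    exact_mod_cast this
  have hcs' : (c:ℝ) < s := by exact_mod_cast hcs
  have hspos : (0:ℝ) < s := hcpos.trans hcs'
  set c' : ℝ≥0 := (c + s) / 2 with hc'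
  have hc'1 : (c:ℝ) < c' := by rw [hc']; push_cast; linarith
  have hc'2 : (c':ℝ) < s := by rw [hc']; push_cast; linarith
  have hc'pos : (0:ℝ) < c' := hcpos.trans hc'1
  set δ : ℝ := min 1 (((s:ℝ) - c') / (6 * c')) with hδ
  have hδ0 : 0 < δ := lt_min one_pos (div_pos (by linarith) (by positivity))
  have hδ1 : δ ≤ 1 := min_le_left _ _
  have hδ2 : δ * (6 * c') ≤ (s:ℝ) - c' := by
    have : δ ≤ ((s:ℝ) - c') / (6 * c') := min_le_right _ _
    rwa [le_div_iff₀ (by positivity)] at this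
  have hkey : (1 + δ) ^ 2 * c' < s := by
    have h1 : (1 + δ) ^ 2 ≤ 1 + 3 * δ := by nlinarith
    calc (1 + δ) ^ 2 * c' ≤ (1 + 3 * δ) * c' := mul_le_mul_of_nonneg_right h1 hc'pos.le
      _ < s := by nlinarith
  set κ : ℝ := 1 / (2 * (c':ℝ)) - (1 + δ) ^ 2 / (2 * s) with hκ
  have hκ0 : 0 < κ := by
    rw [hκ, sub_pos, div_lt_div_iff₀ (by positivity) (by positivity)]
    linarith
  have hdpos : (0:ℝ) < d := by exact_mod_cast hd
  refine ⟨min (1 / (2 * Real.pi * s)) (κ * δ / (2 * d)), by positivity, ?_⟩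
  intro t ht0 ht
  have htpos : (0:ℝ) < t := by
    have : 0 < t := pos_iff_ne_zero.mpr ht0
    exact_mod_cast this
  have ht1 : (t:ℝ) * (2 * Real.pi * s) ≤ 1 := by
    have := ht.trans (min_le_left _ _)
    rwa [le_div_iff₀ (by positivity)] at this
  have ht2 : (t:ℝ) * (2 * d) ≤ κ * δ := by
    have := ht.trans (min_le_right _ _)
    rwa [le_div_iff₀ (by positivity)] at this
  have hst : s * t ≠ 0 := by
    have : s ≠ 0 := by
      intro h; rw [h] at hspos; simp at hspos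
    exact mul_ne_zero this ht0
  -- upper bound
  have hU : F (s * t) ≤ 1 - δ * Real.exp (-((1 + δ) ^ 2 / (2 * s) / t)) := by
    refine (F_le_Fb _).trans ((hUp _ hst).trans ((w_one_le hst hδ0.le).trans ?_))
    have h2 : Real.exp (-((1 + δ) ^ 2 / (2 * s) / t)) ≤ ph (s * t) (1 + δ) := by
      rw [ph_eq]
      push_cast
      have h3 : (1:ℝ) ≤ (√(2 * Real.pi * (s * t)))⁻¹ := by
        apply (one_le_inv₀ (by positivity)).mpr
        rw [Real.sqrt_le_left (by norm_num)]
        linarith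
      have h4 : -(1 + δ) ^ 2 / (2 * ((s:ℝ) * t)) = -((1 + δ) ^ 2 / (2 * s) / t) := by
        field_simp
      rw [h4]
      have := Real.exp_pos (-((1 + δ) ^ 2 / (2 * s) / t))
      nlinarith
    nlinarith
  -- lower bound
  have hc't : c' * t ≠ 0 := by
    have : c' ≠ 0 := by
      intro h; rw [h] at hc'pos; simp at hc'pos
    exact mul_ne_zero this ht0
  have hL : 1 - 2 * d * Real.exp (-(1 / (2 * c') / t)) ≤ F (c * t) ^ d := by
    have h5 : c * t < c' * t := by
      have : c < c' := by exact_mod_cast hc'1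
      exact mul_lt_mul_of_pos_right this (pos_iff_ne_zero.mpr ht0)
    have h6 : 1 - 2 * Real.exp (-(1 / (2 * c') / t)) ≤ F (c * t) := by
      refine le_trans ?_ (Fb_le_F h5)
      have := Fb_lower hc't
      push_cast at this
      have h7 : 1 / (2 * ((c':ℝ) * t)) = 1 / (2 * c') / t := by field_simp
      rwa [h7] at this
    by_cases hneg : 0 ≤ 1 - 2 * Real.exp (-(1 / (2 * (c':ℝ)) / t))
    · have h8 := one_add_mul_le_pow (a := -(2 * Real.exp (-(1 / (2 * (c':ℝ)) / t)))) (by linarith) d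
      calc 1 - 2 * d * Real.exp (-(1 / (2 * c') / t)) =
            1 + d * -(2 * Real.exp (-(1 / (2 * (c':ℝ)) / t))) := by ring
        _ ≤ (1 + -(2 * Real.exp (-(1 / (2 * (c':ℝ)) / t)))) ^ d := h8
        _ ≤ F (c * t) ^ d := by
            apply pow_le_pow_left₀ (by linarith)
            linarith
    · push Not at hneg
      have h9 : (1:ℝ) ≤ d := by exact_mod_cast hd
      have h10 := Real.exp_pos (-(1 / (2 * (c':ℝ)) / t))
      have h11 : 0 ≤ F (c * t) ^ d := pow_nonneg (F_nonneg _) _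
      nlinarith
  have hfin : 2 * d * Real.exp (-(1 / (2 * (c':ℝ)) / t)) <
      δ * Real.exp (-((1 + δ) ^ 2 / (2 * s) / t)) := by
    have h12 : Real.exp (-((1 + δ) ^ 2 / (2 * s) / t)) =
        Real.exp (κ / t) * Real.exp (-(1 / (2 * (c':ℝ)) / t)) := by
      rw [← Real.exp_add]
      congr 1
      rw [hκ]
      ring
    rw [h12]
    have h13 : 2 * d < δ * Real.exp (κ / t) := by
      have h14 : κ / t + 1 ≤ Real.exp (κ / t) := Real.add_one_le_exp _
      have h15 : 2 * d ≤ δ * (κ / t) := by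
        rw [← mul_div_assoc, le_div_iff₀ htpos]
        linarith
      nlinarith
    have := Real.exp_pos (-(1 / (2 * (c':ℝ)) / t))
    nlinarith
  linarith

/-! ### The exit time of a box -/

/-- The exit time `inf {t ≥ 0 : B_t ∉ D}` (with `inf ∅ = ∞`) of the process in `ℝ^d` with
coordinates `B k`. -/
noncomputable def exitTime {d : ℕ} {Ω : Type*} (B : Fin d → ℝ≥0 → Ω → ℝ) (D : Set (Fin d → ℝ))
    (ω : Ω) : ℝ≥0∞ := ⨅ (t : ℝ≥0) (_ : (fun k => B k t ω) ∉ D), (t : ℝ≥0∞)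

/-- The open box `R_a`. -/
def box {d : ℕ} (a : Fin d → ℝ) : Set (Fin d → ℝ) := {x | ∀ k, |x k| < a k}

/-- The first Dirichlet eigenvalue of `-Δ` on the box `R_a`, `(π²/4) ∑ a_k^{-2}`. -/
noncomputable def lambda1 {d : ℕ} (a : Fin d → ℝ) : ℝ := Real.pi ^ 2 / 4 * ∑ k, (a k)⁻¹ ^ 2

section exit

variable {d : ℕ} {Ω : Type*} [MeasurableSpace Ω] {P : Measure Ω} {B : Fin d → ℝ≥0 → Ω → ℝ}

lemma lt_exitTime_iff {a : Fin d → ℝ} (ha : ∀ k, 0 < a k) {ω : Ω}
    (hc : ∀ k, Continuous fun t => B k t ω) (t : ℝ≥0) :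
    (t : ℝ≥0∞) < exitTime B (box a) ω ↔ ∀ k, (B k · ω) ∈ Op t (a k) := by
  have h0 : (∀ k, (B k · ω) ∈ Op t (a k)) ↔ ∀ s ≤ t, ∀ k, |B k s ω| < a k := by
    constructor
    · intro h s hs k
      exact (mem_Op_iff (hc k) t (ha k)).mp (h k) s hs
    · intro h k
      exact (mem_Op_iff (hc k) t (ha k)).mpr fun s hs => h s hs k
  rw [h0]
  constructor
  · intro h s hs k
    by_contra hcon
    have h1 : exitTime B (box a) ω ≤ (s : ℝ≥0∞) := by
      unfold exitTime
      refine iInf₂_le s ?_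
      intro hmem
      exact hcon (hmem k)
    have h2 : (s : ℝ≥0∞) ≤ t := by exact_mod_cast hs
    exact absurd (h.trans_le (h1.trans h2)) (lt_irrefl _)
  · intro h
    set C : Set ℝ≥0 := {s | (fun k => B k s ω) ∉ box a} with hC
    have hCcl : IsClosed C := by
      have : C = ⋃ k, {s | a k ≤ |B k s ω|} := by
        ext s; simp [hC, box]
      rw [this]
      exact isClosed_iUnion_of_finite fun k => isClosed_le continuous_const (hc k).abs
    rcases C.eq_empty_or_nonempty with hE | hN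
    · have : exitTime B (box a) ω = ⊤ := by
        unfold exitTime
        rw [iInf₂_eq_top]
        intro s hs
        have : s ∈ C := hs
        rw [hE] at this
        exact absurd this (notMem_empty _)
      rw [this]
      exact ENNReal.coe_lt_top
    · have hmem : sInf C ∈ C := hCcl.csInf_mem hN (OrderBot.bddBelow C)
      have h1 : t < sInf C := by
        by_contra hcon
        push Not at hcon
        exact hmem (fun k => h _ hcon k)
      refine lt_of_lt_of_le (ENNReal.coe_lt_coe.mpr h1) ?_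
      unfold exitTime
      refine le_iInf₂ fun s hs => ?_
      exact ENNReal.coe_le_coe.mpr (csInf_le (OrderBot.bddBelow C) hs)

/-- scaled time factor -/
noncomputable def sc (a : ℝ) : ℝ≥0 := (a.toNNReal ^ 2)⁻¹

lemma ae_cont (hB : ∀ k, IsBrownianReal (B k) P) :
    ∀ᵐ ω ∂P, ∀ k, Continuous fun t => B k t ω := by
  rw [ae_all_iff]
  exact fun k => (hB k).cont

lemma prob_exit (hB : ∀ k, IsBrownianReal (B k) P)
    (hind : iIndepFun (fun k ω t => B k t ω) P) {a : Fin d → ℝ} (ha : ∀ k, 0 < a k) (t : ℝ≥0) :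
    P {ω | (t : ℝ≥0∞) < exitTime B (box a) ω} = ENNReal.ofReal (∏ k, F (sc (a k) * t)) := by
  have h1 : {ω | (t : ℝ≥0∞) < exitTime B (box a) ω} =ᵐ[P]
      (⋂ k ∈ (Finset.univ : Finset (Fin d)), (fun ω t => B k t ω) ⁻¹' (Op t (a k)) : Set Ω) := by
    refine Filter.eventuallyEq_set.mpr ?_
    filter_upwards [ae_cont hB] with ω hω
    rw [lt_exitTime_iff ha hω]
    simp
  rw [measure_congr h1, hind.measure_inter_preimage_eq_mul Finset.univ (fun k _ => meas_Op _ _),
    ENNReal.ofReal_prod_of_nonneg fun k _ => F_nonneg _]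
  apply Finset.prod_congr rfl
  intro k _
  have h2 : (a k).toNNReal ≠ 0 := by
    rw [Ne, Real.toNNReal_eq_zero, not_le]; exact ha k
  have h3 := prob_Op (hB k) t h2
  rw [Real.coe_toNNReal _ (ha k).le] at h3
  have h4 : t / (a k).toNNReal ^ 2 = sc (a k) * t := by
    unfold sc; rw [div_eq_mul_inv, mul_comm]
  rw [h4] at h3
  exact h3

lemma sc_pos {a : ℝ} (ha : 0 < a) : 0 < sc a := by
  unfold sc
  have : 0 < a.toNNReal := Real.toNNReal_pos.mpr ha
  positivity

lemma prob_exit_top [NeZero d] (hB : ∀ k, IsBrownianReal (B k) P)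
    (hind : iIndepFun (fun k ω t => B k t ω) P) {a : Fin d → ℝ} (ha : ∀ k, 0 < a k) :
    ∀ᵐ ω ∂P, exitTime B (box a) ω ≠ ⊤ := by
  rw [ae_iff]
  simp only [not_not]
  have h1 : ∀ n : ℕ, P {ω | exitTime B (box a) ω = ⊤} ≤
      ENNReal.ofReal (ρ ^ ⌊sc (a 0) * n⌋₊) := by
    intro n
    calc P {ω | exitTime B (box a) ω = ⊤} ≤ P {ω | ((n : ℝ≥0) : ℝ≥0∞) < exitTime B (box a) ω} := by
          apply measure_mono
          intro ω hω
          have : exitTime B (box a) ω = ⊤ := hω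
          show ((n : ℝ≥0) : ℝ≥0∞) < exitTime B (box a) ω
          rw [this]; exact ENNReal.coe_lt_top
      _ = ENNReal.ofReal (∏ k, F (sc (a k) * n)) := prob_exit hB hind ha n
      _ ≤ ENNReal.ofReal (ρ ^ ⌊sc (a 0) * n⌋₊) := by
          apply ENNReal.ofReal_le_ofReal
          refine le_trans ?_ (F_exp _)
          rw [← Finset.mul_prod_erase _ _ (Finset.mem_univ (0 : Fin d))]
          apply mul_le_of_le_one_right (F_nonneg _)
          exact Finset.prod_le_one (fun i _ => F_nonneg _) fun i _ => F_le_one _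
  have h2 : Tendsto (fun n : ℕ => ENNReal.ofReal (ρ ^ ⌊sc (a 0) * n⌋₊)) atTop (𝓝 0) := by
    rw [← ENNReal.ofReal_zero]
    apply ENNReal.tendsto_ofReal
    apply (tendsto_pow_atTop_nhds_zero_of_lt_one ρ_pos.le ρ_lt).comp
    apply tendsto_nat_floor_atTop.comp
    have h3 := sc_pos (ha 0)
    have h4 : Tendsto (fun n : ℕ => (n : ℝ≥0)) atTop atTop := tendsto_natCast_atTop_atTop
    exact h4.const_mul_atTop h3
  exact le_antisymm (ge_of_tendsto' h2 h1) bot_le

/-- moments of the exit time -/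
lemma moment_eq [NeZero d] (hB : ∀ k, IsBrownianReal (B k) P)
    (hind : iIndepFun (fun k ω t => B k t ω) P) {a : Fin d → ℝ} (ha : ∀ k, 0 < a k) {p : ℝ}
    (hp : 0 < p) : ∫⁻ ω, (exitTime B (box a) ω) ^ p ∂P =
      ENNReal.ofReal p * ∫⁻ t in Ioi (0:ℝ),
        ENNReal.ofReal (∏ k, F (sc (a k) * t.toNNReal)) * ENNReal.ofReal (t ^ (p - 1)) := by
  have hfin := prob_exit_top hB hind ha
  have hset : ∀ t : ℝ, 0 ≤ t → {ω | t < (exitTime B (box a) ω).toReal} =ᵐ[P]
      {ω | ((t.toNNReal : ℝ≥0) : ℝ≥0∞) < exitTime B (box a) ω} := by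
    intro t ht
    filter_upwards [hfin] with ω hω
    apply propext
    change (t < (exitTime B (box a) ω).toReal) ↔ (((t.toNNReal : ℝ≥0) : ℝ≥0∞) < exitTime B (box a) ω)
    rw [ENNReal.coe_nnreal_eq, Real.coe_toNNReal _ ht, ENNReal.ofReal_lt_iff_lt_toReal ht hω]
  have hnm : ∀ t : ℝ≥0, NullMeasurableSet {ω | (t : ℝ≥0∞) < exitTime B (box a) ω} P := by
    intro t
    have h1 : {ω | (t : ℝ≥0∞) < exitTime B (box a) ω} =ᵐ[P]
        (⋂ k, ⋃ l : ℕ, ⋂ m : ℕ, ⋂ i ∈ Finset.range (⌊t * 2 ^ m⌋₊ + 1),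
          {ω | |0 + B k (i / 2 ^ m) ω| ≤ ql l * a k} : Set Ω) := by
      refine Filter.eventuallyEq_set.mpr ?_
      filter_upwards [ae_cont hB] with ω hω
      rw [lt_exitTime_iff ha hω]
      simp [Op, Gd, Nat.lt_succ_iff]
    refine NullMeasurableSet.congr ?_ h1.symm
    refine NullMeasurableSet.iInter fun k => NullMeasurableSet.iUnion fun l =>
      NullMeasurableSet.iInter fun m => Finset.nullMeasurableSet_biInter _ fun i _ => ?_
    exact nm_le (hB k).toIsPreBrownianReal _ _ _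
  have hmeas : AEMeasurable (fun ω => (exitTime B (box a) ω).toReal) P := by
    apply NullMeasurable.aemeasurable
    have : @Measurable (NullMeasurableSpace Ω P) ℝ _ _ (fun ω => (exitTime B (box a) ω).toReal) := by
      apply measurable_of_Ioi
      intro t
      by_cases ht : 0 ≤ t
      · exact NullMeasurableSet.congr (hnm t.toNNReal) (hset t ht).symm
      · have : (fun ω => (exitTime B (box a) ω).toReal) ⁻¹' Ioi t = univ := by
          ext ω
          simp only [mem_preimage, mem_Ioi, mem_univ, iff_true]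
          exact lt_of_lt_of_le (not_le.mp ht) ENNReal.toReal_nonneg
        show NullMeasurableSet ((fun ω : Ω => (exitTime B (box a) ω).toReal) ⁻¹' Ioi t) P
        rw [this]
        exact nullMeasurableSet_univ
    exact this
  have h1 : ∫⁻ ω, (exitTime B (box a) ω) ^ p ∂P =
      ∫⁻ ω, ENNReal.ofReal ((exitTime B (box a) ω).toReal ^ p) ∂P := by
    apply lintegral_congr_ae
    filter_upwards [hfin] with ω hω
    rw [← ENNReal.ofReal_rpow_of_nonneg ENNReal.toReal_nonneg hp.le, ENNReal.ofReal_toReal hω]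
  rw [h1, lintegral_rpow_eq_lintegral_meas_lt_mul P (ae_of_all _ fun ω => ENNReal.toReal_nonneg)
    hmeas hp]
  congr 1
  apply setLIntegral_congr_fun measurableSet_Ioi
  intro t ht
  have ht' : (0:ℝ) < t := ht
  simp only
  rw [measure_congr (hset t ht'.le), prob_exit hB hind ha]

end exit

/-! ### Comparison of the integrals -/

/-- `∫_0^∞ ∏ F(s_k t) t^{p-1} dt` -/
noncomputable def Itg {d : ℕ} (s : Fin d → ℝ≥0) (p : ℝ) : ℝ≥0∞ :=
  ∫⁻ t in Ioi (0:ℝ), ENNReal.ofReal (∏ k, F (s k * t.toNNReal)) * ENNReal.ofReal (t ^ (p - 1))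

lemma Itg_lt_top {d : ℕ} [NeZero d] (s : Fin d → ℝ≥0) (hs : s 0 ≠ 0) {p : ℝ} (hp : 0 < p) :
    Itg s p < ⊤ := by
  have hspos : (0:ℝ) < s 0 := by
    have : 0 < s 0 := pos_iff_ne_zero.mpr hs
    exact_mod_cast this
  have hlog : Real.log ρ < 0 := Real.log_neg ρ_pos ρ_lt
  set b : ℝ := -(s 0 * Real.log ρ) with hb
  have hbpos : 0 < b := by rw [hb]; nlinarith
  have h1 : ∀ t ∈ Ioi (0:ℝ), ENNReal.ofReal (∏ k, F (s k * t.toNNReal)) *
      ENNReal.ofReal (t ^ (p - 1)) ≤
      ENNReal.ofReal (ρ⁻¹ * (t ^ (p - 1) * Real.exp (-b * t ^ (1:ℝ)))) := by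
    intro t ht
    have ht' : (0:ℝ) < t := ht
    rw [← ENNReal.ofReal_mul (Finset.prod_nonneg fun k _ => F_nonneg _)]
    apply ENNReal.ofReal_le_ofReal
    have h2 : ∏ k, F (s k * t.toNNReal) ≤ ρ⁻¹ * Real.exp (-b * t) := by
      calc ∏ k, F (s k * t.toNNReal) ≤ F (s 0 * t.toNNReal) := by
            rw [← Finset.mul_prod_erase _ _ (Finset.mem_univ (0 : Fin d))]
            apply mul_le_of_le_one_right (F_nonneg _)
            exact Finset.prod_le_one (fun i _ => F_nonneg _) fun i _ => F_le_one _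
        _ ≤ ρ ^ ⌊s 0 * t.toNNReal⌋₊ := F_exp _
        _ = Real.exp (⌊s 0 * t.toNNReal⌋₊ * Real.log ρ) := by
            rw [← Real.rpow_natCast, Real.rpow_def_of_pos ρ_pos, mul_comm (Real.log ρ)]
        _ ≤ Real.exp ((s 0 * t - 1) * Real.log ρ) := by
            apply Real.exp_le_exp.mpr
            have h3 := (Nat.lt_floor_add_one (s 0 * t.toNNReal)).le
            have h4 : ((s 0 * t.toNNReal : ℝ≥0) : ℝ) ≤ (((⌊s 0 * t.toNNReal⌋₊ : ℕ) + 1 : ℝ≥0) : ℝ) := by
              exact_mod_cast h3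
            push_cast at h4
            rw [Real.coe_toNNReal _ ht'.le] at h4
            nlinarith
        _ = ρ⁻¹ * Real.exp (-b * t) := by
            rw [sub_mul, one_mul, Real.exp_sub, Real.exp_log ρ_pos, hb]
            rw [div_eq_inv_mul]
            congr 2
            ring
    rw [Real.rpow_one]
    calc (∏ k, F (s k * t.toNNReal)) * t ^ (p - 1) ≤ (ρ⁻¹ * Real.exp (-b * t)) * t ^ (p - 1) :=
          mul_le_mul_of_nonneg_right h2 (Real.rpow_nonneg ht'.le _)
      _ = _ := by ring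
  have h5 : IntegrableOn (fun t : ℝ => ρ⁻¹ * (t ^ (p - 1) * Real.exp (-b * t ^ (1:ℝ)))) (Ioi 0) :=
    (integrableOn_rpow_mul_exp_neg_mul_rpow (by linarith) one_pos hbpos).const_mul _
  unfold Itg
  calc _ ≤ ∫⁻ t in Ioi (0:ℝ), ENNReal.ofReal (ρ⁻¹ * (t ^ (p - 1) * Real.exp (-b * t ^ (1:ℝ)))) :=
        setLIntegral_mono' measurableSet_Ioi h1
    _ < ⊤ := h5.lintegral_lt_top

lemma meas_Itg {d : ℕ} (s : Fin d → ℝ≥0) (p : ℝ) :
    Measurable fun t : ℝ => ENNReal.ofReal (∏ k, F (s k * t.toNNReal)) *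
      ENNReal.ofReal (t ^ (p - 1)) := by
  have hF : Measurable F := F_anti.measurable
  have h1 : Measurable fun t : ℝ => ENNReal.ofReal (∏ k, F (s k * t.toNNReal)) := by
    apply ENNReal.measurable_ofReal.comp
    apply Finset.measurable_fun_prod
    intro k _
    exact hF.comp (measurable_real_toNNReal.const_mul _)
  have h2 : Measurable fun t : ℝ => ENNReal.ofReal (t ^ (p - 1)) := by
    apply ENNReal.measurable_ofReal.comp
    exact measurable_id.pow_const _
  exact h1.mul h2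

lemma Itg_scale {d : ℕ} {c : ℝ≥0} (hc : c ≠ 0) (p : ℝ) :
    Itg (fun _ : Fin d => (1 : ℝ≥0)) p =
      ENNReal.ofReal ((c : ℝ) ^ p) * Itg (fun _ : Fin d => c) p := by
  have hcpos : (0:ℝ) < c := by
    have : 0 < c := pos_iff_ne_zero.mpr hc
    exact_mod_cast this
  unfold Itg
  set g : ℝ → ℝ≥0∞ := fun t => ENNReal.ofReal (∏ k : Fin d, F (1 * t.toNNReal)) *
    ENNReal.ofReal (t ^ (p - 1)) with hg
  have hgm : Measurable g := meas_Itg (fun _ : Fin d => (1 : ℝ≥0)) p
  have h1 : ∫⁻ t in Ioi (0:ℝ), g t =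
      ENNReal.ofReal c * ∫⁻ u, (Ioi (0:ℝ)).indicator g (c * u) := by
    rw [← lintegral_indicator measurableSet_Ioi]
    conv_lhs => rw [← Real.smul_map_volume_mul_left hcpos.ne']
    rw [lintegral_smul_measure, lintegral_map (hgm.indicator measurableSet_Ioi)
      (measurable_const_mul _), abs_of_pos hcpos, smul_eq_mul]
  have h2 : ∀ u : ℝ, (Ioi (0:ℝ)).indicator g (c * u) =
      ENNReal.ofReal ((c:ℝ) ^ (p - 1)) * (Ioi (0:ℝ)).indicator
        (fun u => ENNReal.ofReal (∏ k : Fin d, F (c * u.toNNReal)) *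
          ENNReal.ofReal (u ^ (p - 1))) u := by
    intro u
    by_cases hu : 0 < u
    · rw [indicator_of_mem (by exact mul_pos hcpos hu), indicator_of_mem (by exact hu)]
      simp only [hg, one_mul]
      have h3 : ((c:ℝ) * u).toNNReal = c * u.toNNReal := by
        rw [Real.toNNReal_mul hcpos.le, Real.toNNReal_coe]
      rw [h3, Real.mul_rpow hcpos.le hu.le, ENNReal.ofReal_mul (by positivity)]
      ring
    · have hu' : u ∉ Ioi (0:ℝ) := hu
      have hu2 : (c:ℝ) * u ∉ Ioi (0:ℝ) := by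
        intro h
        exact hu ((mul_pos_iff_of_pos_left hcpos).mp h)
      rw [indicator_of_notMem hu', indicator_of_notMem hu2, mul_zero]
  show ∫⁻ t in Ioi (0:ℝ), g t = _
  rw [h1]
  simp_rw [h2]
  rw [lintegral_const_mul' _ _ ENNReal.ofReal_ne_top, lintegral_indicator measurableSet_Ioi,
    ← mul_assoc, ← ENNReal.ofReal_mul hcpos.le]
  congr 2
  rw [Real.rpow_sub_one hcpos.ne']
  field_simp

section final

variable {d : ℕ} {Ω : Type*} [MeasurableSpace Ω] {P : Measure Ω}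

lemma HT_of {B : ℝ≥0 → Ω → ℝ} (hB : IsBrownianReal B P) : HT := fun t => (tendsto_grid hB t).1

lemma Up_of {B : ℝ≥0 → Ω → ℝ} (hB : IsBrownianReal B P) (t : ℝ≥0) : Fb t ≤ w t 1 0 := by
  have h1 := (tendsto_grid hB t).2
  have h2 := prob_walk t 1 B hB.toIsPreBrownianReal 0
  have h3 : P {ω | (B · ω) ∈ Gd t 1} ≤
      P {ω | ∀ i ∈ Finset.Icc (1:ℕ) 1, |0 + B ((i : ℝ≥0) * t) ω| ≤ 1} := by
    apply measure_mono_ae
    filter_upwards [hB.cont] with ω hω h i hi
    have h4 := (mem_Gd_iff hω t 1).mp h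
    have : i = 1 := by simpa using hi
    subst this
    simpa using h4 t le_rfl
  rw [h1, h2, ENNReal.ofReal_le_ofReal_iff (w_nonneg _ _ _)] at h3
  exact h3

lemma Itg_le (hT : HT) (s : Fin d → ℝ≥0) (c : ℝ≥0) (hc : (d : ℝ) * c = ∑ k, (s k : ℝ)) (p : ℝ) :
    Itg s p ≤ Itg (fun _ : Fin d => c) p := by
  unfold Itg
  apply setLIntegral_mono' measurableSet_Ioi
  intro t ht
  refine mul_le_mul' (ENNReal.ofReal_le_ofReal ?_) le_rfl
  have h1 := jensen_F hT (fun k => s k * t.toNNReal) (c * t.toNNReal) (by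
    rw [Fintype.card_fin]
    push_cast
    rw [← Finset.sum_mul, ← hc]
    linarith)
  rw [Fintype.card_fin] at h1
  rw [Finset.prod_const, Finset.card_univ, Fintype.card_fin]
  exact h1

lemma Itg_lt [NeZero d] (hT : HT) (hUp : ∀ t : ℝ≥0, t ≠ 0 → Fb t ≤ w t 1 0) (s : Fin d → ℝ≥0)
    (hs : ∀ k, s k ≠ 0) (c : ℝ≥0)
    (hc : (d : ℝ) * c = ∑ k, (s k : ℝ)) (hne : ∃ k, c < s k) {p : ℝ} (hp : 0 < p) :
    Itg s p < Itg (fun _ : Fin d => c) p := by
  have hd : 0 < d := Nat.pos_of_ne_zero (NeZero.ne d)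
  have hc0 : c ≠ 0 := by
    rintro rfl
    rw [NNReal.coe_zero, mul_zero] at hc
    have h1 : (0:ℝ) < ∑ k, (s k : ℝ) := by
      apply Finset.sum_pos
      · intro k _
        have : 0 < s k := pos_iff_ne_zero.mpr (hs k)
        exact_mod_cast this
      · exact ⟨0, Finset.mem_univ _⟩
    linarith
  obtain ⟨k0, hk0⟩ := hne
  obtain ⟨t0, ht0, hstrict⟩ := strict_small hUp hc0 hk0 hd
  have hjensen : ∀ t : ℝ, ∏ k, F (s k * t.toNNReal) ≤ ∏ _k : Fin d, F (c * t.toNNReal) := by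
    intro t
    have h1 := jensen_F hT (fun k => s k * t.toNNReal) (c * t.toNNReal) (by
      rw [Fintype.card_fin]
      push_cast
      rw [← Finset.sum_mul, ← hc]
      linarith)
    rw [Fintype.card_fin] at h1
    rw [Finset.prod_const, Finset.card_univ, Fintype.card_fin]
    exact h1
  refine lintegral_strict_mono_of_ae_le_of_ae_lt_on
    (meas_Itg (fun _ : Fin d => c) p).aemeasurable (Itg_lt_top s (hs 0) hp).ne ?_
    (s := Ioc 0 t0) ?_ ?_
  · filter_upwards with t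
    exact mul_le_mul' (ENNReal.ofReal_le_ofReal (hjensen t)) le_rfl
  · rw [Measure.restrict_apply measurableSet_Ioc,
      inter_eq_self_of_subset_left (fun t ht => ht.1), Real.volume_Ioc]
    simp [ht0]
  · filter_upwards with t ht
    have htpos : (0:ℝ) < t := ht.1
    have h2 : ENNReal.ofReal (t ^ (p - 1)) ≠ 0 := by
      rw [Ne, ENNReal.ofReal_eq_zero, not_le]
      exact Real.rpow_pos_of_pos htpos _
    apply ENNReal.mul_lt_mul_left h2 ENNReal.ofReal_ne_top
    have h3 : F (s k0 * t.toNNReal) < F (c * t.toNNReal) ^ d := by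
      apply hstrict
      · rw [Ne, Real.toNNReal_eq_zero, not_le]; exact htpos
      · rw [Real.coe_toNNReal _ htpos.le]; exact ht.2
    have h4 : ∏ k, F (s k * t.toNNReal) ≤ F (s k0 * t.toNNReal) := by
      rw [← Finset.mul_prod_erase _ _ (Finset.mem_univ k0)]
      apply mul_le_of_le_one_right (F_nonneg _)
      exact Finset.prod_le_one (fun i _ => F_nonneg _) fun i _ => F_le_one _
    rw [Finset.prod_const, Finset.card_univ, Fintype.card_fin]
    rw [ENNReal.ofReal_lt_ofReal_iff (lt_of_le_of_lt (F_nonneg _) h3)]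
    exact h4.trans_lt h3

end final

/-- **The cube maximises the normalised exit-time moments among boxes, strictly.** -/
theorem result {d : ℕ} (hd : 2 ≤ d) {p : ℝ} (hp : 0 < p) {a : Fin d → ℝ} (ha : ∀ k, 0 < a k)
    {Ω : Type*} [MeasurableSpace Ω] (P : Measure Ω) (B : Fin d → ℝ≥0 → Ω → ℝ)
    (hB : ∀ k, IsBrownianReal (B k) P) (hind : iIndepFun (fun k ω t => B k t ω) P) :
    ENNReal.ofReal (lambda1 a ^ p) * ∫⁻ ω, (exitTime B (box a) ω) ^ p ∂P ≤
        ENNReal.ofReal (lambda1 (fun _ : Fin d => (1:ℝ)) ^ p) *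
          ∫⁻ ω, (exitTime B (box fun _ => 1) ω) ^ p ∂P ∧
      ENNReal.ofReal (lambda1 (fun _ : Fin d => (1:ℝ)) ^ p) *
          ∫⁻ ω, (exitTime B (box fun _ => 1) ω) ^ p ∂P < ⊤ ∧
      ((∃ k l, a k ≠ a l) →
        ENNReal.ofReal (lambda1 a ^ p) * ∫⁻ ω, (exitTime B (box a) ω) ^ p ∂P <
        ENNReal.ofReal (lambda1 (fun _ : Fin d => (1:ℝ)) ^ p) *
          ∫⁻ ω, (exitTime B (box fun _ => 1) ω) ^ p ∂P) := by
  have : NeZero d := ⟨by omega⟩
  have hdpos : (0:ℝ) < d := by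
    have : 0 < d := by omega
    exact_mod_cast this
  have hT : HT := HT_of (hB 0)
  have hUp : ∀ t : ℝ≥0, t ≠ 0 → Fb t ≤ w t 1 0 := fun t _ => Up_of (hB 0) t
  set s : Fin d → ℝ≥0 := fun k => sc (a k) with hs
  have hs0 : ∀ k, s k ≠ 0 := fun k => (sc_pos (ha k)).ne'
  have hsval : ∀ k, (s k : ℝ) = (a k)⁻¹ ^ 2 := by
    intro k
    simp only [hs, sc]
    push_cast
    rw [Real.coe_toNNReal _ (ha k).le, inv_pow]
  set c : ℝ≥0 := (∑ k, s k) / d with hc
  have hcval : (d : ℝ) * c = ∑ k, (s k : ℝ) := by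
    rw [hc]
    push_cast
    field_simp
  have hsumpos : 0 < ∑ k, (s k : ℝ) := by
    apply Finset.sum_pos
    · intro k _
      have : 0 < s k := pos_iff_ne_zero.mpr (hs0 k)
      exact_mod_cast this
    · exact ⟨0, Finset.mem_univ _⟩
  have hcpos : (0:ℝ) < c := by
    by_contra hcon
    push Not at hcon
    nlinarith
  have hc0 : c ≠ 0 := by
    rintro h
    rw [h] at hcpos
    simp at hcpos
  have hlam : lambda1 a = Real.pi ^ 2 / 4 * (d * c) := by
    unfold lambda1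
    rw [hcval]
    simp_rw [hsval]
  have hlam1 : lambda1 (fun _ : Fin d => (1:ℝ)) = Real.pi ^ 2 / 4 * d := by
    unfold lambda1
    simp
  have hone : sc 1 = 1 := by unfold sc; simp
  have hL : ENNReal.ofReal (lambda1 a ^ p) * ∫⁻ ω, (exitTime B (box a) ω) ^ p ∂P =
      (ENNReal.ofReal (lambda1 a ^ p) * ENNReal.ofReal p) * Itg s p := by
    rw [moment_eq hB hind ha hp, mul_assoc]
    rfl
  have hR : ENNReal.ofReal (lambda1 (fun _ : Fin d => (1:ℝ)) ^ p) *
      ∫⁻ ω, (exitTime B (box fun _ => 1) ω) ^ p ∂P =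
      (ENNReal.ofReal (lambda1 a ^ p) * ENNReal.ofReal p) * Itg (fun _ : Fin d => c) p := by
    rw [moment_eq hB hind (a := fun _ => 1) (fun _ => one_pos) hp]
    have h1 : ∫⁻ t in Ioi (0:ℝ), ENNReal.ofReal (∏ k : Fin d, F (sc 1 * t.toNNReal)) *
        ENNReal.ofReal (t ^ (p - 1)) = Itg (fun _ : Fin d => (1:ℝ≥0)) p := by
      unfold Itg
      rw [hone]
    rw [h1, Itg_scale hc0 p]
    have h2 : lambda1 a ^ p = lambda1 (fun _ : Fin d => (1:ℝ)) ^ p * (c:ℝ) ^ p := by
      rw [hlam, hlam1, ← Real.mul_rpow (by positivity) hcpos.le]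
      ring_nf
    have h3 : 0 ≤ lambda1 (fun _ : Fin d => (1:ℝ)) ^ p := by
      rw [hlam1]; positivity
    rw [h2, ENNReal.ofReal_mul h3]
    ring
  have hK0 : ENNReal.ofReal (lambda1 a ^ p) * ENNReal.ofReal p ≠ 0 := by
    apply mul_ne_zero
    · rw [Ne, ENNReal.ofReal_eq_zero, not_le, hlam]
      positivity
    · rw [Ne, ENNReal.ofReal_eq_zero, not_le]; exact hp
  have hKt : ENNReal.ofReal (lambda1 a ^ p) * ENNReal.ofReal p ≠ ⊤ :=
    ENNReal.mul_ne_top ENNReal.ofReal_ne_top ENNReal.ofReal_ne_top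
  rw [hL, hR]
  refine ⟨?_, ?_, ?_⟩
  · exact mul_le_mul' le_rfl (Itg_le hT s c hcval p)
  · exact ENNReal.mul_lt_top hKt.lt_top (Itg_lt_top _ hc0 hp)
  · rintro ⟨k, l, hkl⟩
    apply ENNReal.mul_lt_mul_right hK0 hKt
    apply Itg_lt hT hUp s hs0 c hcval _ hp
    by_contra hcon
    push Not at hcon
    have hall : ∀ k, (s k : ℝ) = c := by
      have h4 : ∑ k, ((c : ℝ) - s k) = 0 := by
        rw [Finset.sum_sub_distrib, Finset.sum_const, Finset.card_univ, Fintype.card_fin,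
          nsmul_eq_mul, ← hcval]
        ring
      have h5 : ∀ k ∈ Finset.univ, 0 ≤ (c : ℝ) - s k := by
        intro k _
        have : (s k : ℝ) ≤ c := by exact_mod_cast hcon k
        linarith
      intro k
      have := (Finset.sum_eq_zero_iff_of_nonneg h5).mp h4 k (Finset.mem_univ k)
      linarith
    apply hkl
    have h6 := (hall k).trans (hall l).symm
    rw [hsval, hsval] at h6
    have h7 : (a k)⁻¹ = (a l)⁻¹ := by
      have hk := inv_pos.mpr (ha k)
      have hl := inv_pos.mpr (ha l)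
      exact (pow_left_inj₀ hk.le hl.le two_ne_zero).mp h6
    exact inv_injective h7

end Pool.Agent.Results.MP_1e851b_pr.BoxExit
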